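import Pool.Agent.H43.HOL.Pts
import Pool.Agent.H73.D2.Hgt
import Pool.Agent.H95.HOL.Ev
import Pool.Agent.H6.STB.EjA
import Pool.Agent.H91.LA.Own

/-!
# A closed gradient without curvature: the closed coordinates, two samples with one point

`via`: a function of the value of `f`. `qp`: the closed coordinates as polynomials. `grd_grow`: the growth of the
gradient. `lab_ptr`: the height of `c 2` over a closed chart at two samples with the same point.
-/

set_option autoImplicit false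

namespace Pool.HOL43

open Finset Real MvPolynomial
open Pool.Agent.H49.Ent Pool.Agent.H32.Dense Pool.STK Pool.KA Pool.KSAT Pool.K2S Pool.PB Pool.S6C
open Pool.GEN Pool.CHT Pool.CHX Pool.D2Con Pool.D2A Pool.D2F Pool.RCD
open Pool.STB (V3 Po Bx cv mv_pd)
open Pool.STB82 (dg yv hgP)
open Pool.PB.Trl (rt rt_mem t_rt)

variable {m J : ℕ}

/-! ### Selection -/

open Classical in
/-- A function of the value of `f`. -/
noncomputable def via {Ω α β : Type} (f : Ω → α) (B : Ω → Prop) (v : Ω → β) (d : β) (y : α) : β :=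
  if h : ∃ ω, B ω ∧ f ω = y then v h.choose else d

theorem via_spec {Ω α β : Type} (f : Ω → α) (B : Ω → Prop) (v : Ω → β) (d : β) {ω : Ω}
    (hω : B ω) : ∃ ω', B ω' ∧ f ω' = f ω ∧ via f B v d (f ω) = v ω' := by
  classical
  have h : ∃ ω', B ω' ∧ f ω' = f ω := ⟨ω, hω, rfl⟩
  unfold via
  rw [dif_pos h]
  exact ⟨h.choose, h.choose_spec.1, h.choose_spec.2, rfl⟩

theorem via_eq {Ω α β : Type} {f : Ω → α} {B : Ω → Prop} {v : Ω → β} (d : β)
    (hv : ∀ ω ω', B ω → B ω' → f ω = f ω' → v ω = v ω') {ω : Ω} (hω : B ω) :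
    via f B v d (f ω) = v ω := by
  obtain ⟨ω', h1, h2, h3⟩ := via_spec f B v d hω
  rw [h3]
  exact hv _ _ h1 hω h2

theorem via_prop {Ω α β : Type} (f : Ω → α) (B : Ω → Prop) (v : Ω → β) (d : β) {P : β → Prop}
    (h : ∀ ω, B ω → P (v ω)) (hd : P d) (y : α) : P (via f B v d y) := by
  classical
  unfold via
  split_ifs with h'
  · exact h _ h'.choose_spec.1
  · exact hd

/-! ### The closed coordinates -/

/-- **The closed coordinates** as polynomials. -/
noncomputable def qp (c : ℕ → Fin m) (W₀ g1 : ℕ) (R b₀ : ℝ) (ct : V3)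
    (P : MvPolynomial (Option (Fin m)) ℝ) : Fin 3 → MvPolynomial (Option (Fin m)) ℝ :=
  ![C R * (C (2 ^ W₀) * X none - C (b₀ + ct 0)), C R * (C (2 ^ W₀) * X (some (c 0)) - C (ct 1)),
    C R * (C (2 ^ g1) * (X (some (c 1)) - P) - C (ct 2))]

section qp

variable {c : ℕ → Fin m} {W₀ g1 : ℕ} {R b₀ : ℝ} {ct : V3} {P : MvPolynomial (Option (Fin m)) ℝ}

theorem qp_eval0 (b : Option (Fin m) → ℝ) :
    eval b (qp c W₀ g1 R b₀ ct P 0) = R * (2 ^ W₀ * b none - (b₀ + ct 0)) := by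
  show eval b (C R * (C (2 ^ W₀) * X none - C (b₀ + ct 0))) = _
  simp only [map_mul, map_sub, eval_C, eval_X]

theorem qp_eval1 (b : Option (Fin m) → ℝ) :
    eval b (qp c W₀ g1 R b₀ ct P 1) = R * (2 ^ W₀ * b (some (c 0)) - ct 1) := by
  show eval b (C R * (C (2 ^ W₀) * X (some (c 0)) - C (ct 1))) = _
  simp only [map_mul, map_sub, eval_C, eval_X]

theorem qp_eval2 (b : Option (Fin m) → ℝ) :
    eval b (qp c W₀ g1 R b₀ ct P 2) = R * (2 ^ g1 * (b (some (c 1)) - eval b P) - ct 2) := by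
  show eval b (C R * (C (2 ^ g1) * (X (some (c 1)) - P) - C (ct 2))) = _
  simp only [map_mul, map_sub, eval_C, eval_X]

theorem qp_deg {K : ℕ} (hP : P.totalDegree ≤ K) (i : Fin 3) :
    (qp c W₀ g1 R b₀ ct P i).totalDegree ≤ K + 1 := by
  have key : ∀ (r s t : ℝ) (Q : MvPolynomial (Option (Fin m)) ℝ), Q.totalDegree ≤ K + 1 →
      (C r * (C s * Q - C t)).totalDegree ≤ K + 1 := by
    intro r s t Q hQ
    refine (totalDegree_mul _ _).trans ?_
    rw [totalDegree_C, zero_add]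
    refine (totalDegree_sub _ _).trans (max_le ?_ ?_)
    · refine (totalDegree_mul _ _).trans ?_
      rw [totalDegree_C, zero_add]
      exact hQ
    · rw [totalDegree_C]
      exact Nat.zero_le _
  have hX : ∀ o : Option (Fin m), (X o : MvPolynomial (Option (Fin m)) ℝ).totalDegree ≤ K + 1 :=
    fun o => by
      rw [totalDegree_X]
      omega
  fin_cases i
  · exact key _ _ _ _ (hX _)
  · exact key _ _ _ _ (hX _)
  · exact key _ _ _ _ ((totalDegree_sub _ _).trans (max_le (hX _) (hP.trans (Nat.le_succ K))))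

theorem qp_dep (hP : DepC c 1 P) (i : Fin 3) : DepC c 2 (qp c W₀ g1 R b₀ ct P i) := by
  intro b b' hn hb
  fin_cases i
  · show eval b (qp c W₀ g1 R b₀ ct P 0) = eval b' (qp c W₀ g1 R b₀ ct P 0)
    rw [qp_eval0, qp_eval0, hn]
  · show eval b (qp c W₀ g1 R b₀ ct P 1) = eval b' (qp c W₀ g1 R b₀ ct P 1)
    rw [qp_eval1, qp_eval1, hb 0 (by norm_num)]
  · show eval b (qp c W₀ g1 R b₀ ct P 2) = eval b' (qp c W₀ g1 R b₀ ct P 2)
    rw [qp_eval2, qp_eval2, hb 1 (by norm_num), hP b b' hn fun l hl => hb l (by omega)]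

theorem pd_lin (r s t : ℝ) (Q : MvPolynomial (Option (Fin m)) ℝ) (o : Option (Fin m))
    (b : Option (Fin m) → ℝ) :
    eval b (pderiv o (C r * (C s * Q - C t))) = r * s * eval b (pderiv o Q) := by
  rw [pderiv_C_mul, map_sub, pderiv_C_mul, pderiv_C, sub_zero, map_mul, map_mul, eval_C, eval_C]
  ring

theorem qp_pd00 (b : Option (Fin m) → ℝ) (j : Fin m) :
    eval b (pderiv (some j) (qp c W₀ g1 R b₀ ct P 0)) = 0 := by
  show eval b (pderiv (some j) (C R * (C (2 ^ W₀) * X none - C (b₀ + ct 0)))) = 0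
  rw [pd_lin, pderiv_X_of_ne (by simp), map_zero, mul_zero]

theorem qp_pd01 (b : Option (Fin m) → ℝ) :
    eval b (pderiv (some (c 0)) (qp c W₀ g1 R b₀ ct P 1)) = R * 2 ^ W₀ := by
  show eval b (pderiv (some (c 0)) (C R * (C (2 ^ W₀) * X (some (c 0)) - C (ct 1)))) = _
  rw [pd_lin, pderiv_X_self, map_one, mul_one]

theorem qp_pd11 (hc : c 0 ≠ c 1) (b : Option (Fin m) → ℝ) :
    eval b (pderiv (some (c 1)) (qp c W₀ g1 R b₀ ct P 1)) = 0 := by
  show eval b (pderiv (some (c 1)) (C R * (C (2 ^ W₀) * X (some (c 0)) - C (ct 1)))) = 0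
  rw [pd_lin, pderiv_X_of_ne (fun h => hc (Option.some_injective _ h)), map_zero, mul_zero]

theorem qp_pd02 (hc : c 0 ≠ c 1) (b : Option (Fin m) → ℝ) :
    eval b (pderiv (some (c 0)) (qp c W₀ g1 R b₀ ct P 2)) =
      -(R * 2 ^ g1 * eval b (pderiv (some (c 0)) P)) := by
  show eval b (pderiv (some (c 0)) (C R * (C (2 ^ g1) * (X (some (c 1)) - P) - C (ct 2)))) = _
  rw [pd_lin, map_sub, pderiv_X_of_ne (fun h => hc (Option.some_injective _ h).symm), zero_sub,
    map_neg]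
  ring

theorem qp_pd12 (hc : c 0 ≠ c 1) (hP : DepC c 1 P) (b : Option (Fin m) → ℝ) :
    eval b (pderiv (some (c 1)) (qp c W₀ g1 R b₀ ct P 2)) = R * 2 ^ g1 := by
  show eval b (pderiv (some (c 1)) (C R * (C (2 ^ g1) * (X (some (c 1)) - P) - C (ct 2)))) = _
  rw [pd_lin, map_sub, pderiv_X_self, map_sub, map_one, Pool.D2R.pd_zero hP (fun l hl h => by
    have : l = 0 := by omega
    subst this
    exact hc h), sub_zero, mul_one]

end qp

/-- The closed coordinates of the samples. -/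
theorem qp_bt {F : Fam m J} {c : ℕ → Fin m} {W₀ g1 : ℕ} (hW : W₀ ≤ J) (R : ℝ) (ct : V3)
    (Pl : LnT F → MvPolynomial (Option (Fin m)) ℝ) (ω : F.Ω) (i : Fin 3) :
    eval (bt F ω) (qp c W₀ g1 R ((slam F W₀ ω).2.2 : ℝ) ct (Pl (slam F W₀ ω)) i) =
      R * (yv F c W₀ g1 Pl ω i - ct i) := by
  have hrt : rt F W₀ ω = 2 ^ W₀ * F.t ω - ((slam F W₀ ω).2.2 : ℝ) := by
    rw [t_rt F hW ω]
    field_simp
    ring
  fin_cases i
  · show eval (bt F ω) (qp c W₀ g1 R ((slam F W₀ ω).2.2 : ℝ) ct (Pl (slam F W₀ ω)) 0) =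
      R * (rt F W₀ ω - ct 0)
    rw [qp_eval0, hrt]
    show R * (2 ^ W₀ * F.t ω - _) = _
    ring
  · show eval (bt F ω) (qp c W₀ g1 R ((slam F W₀ ω).2.2 : ℝ) ct (Pl (slam F W₀ ω)) 1) =
      R * (2 ^ W₀ * F.x ω (c 0) - ct 1)
    rw [qp_eval1]
    rfl
  · show eval (bt F ω) (qp c W₀ g1 R ((slam F W₀ ω).2.2 : ℝ) ct (Pl (slam F W₀ ω)) 2) =
      R * (2 ^ g1 * (F.x ω (c 1) - eval (bt F ω) (Pl (slam F W₀ ω))) - ct 2)
    rw [qp_eval2]
    rfl

/-! ### Growth -/

/-- **The growth of the gradient.** -/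
theorem grd_grow (N : ℕ) : ∃ C : ℝ, 1 ≤ C ∧ ∀ (P : Po) (U R : ℝ), P.totalDegree ≤ N + 1 →
    (∀ v : V3, Bx 1 v → |eval v P| ≤ U) → 1 ≤ R → ∀ (j : Fin 3) (v : V3), Bx R v →
      |eval v (pderiv j P)| ≤ C * U * R ^ N := by
  obtain ⟨C, hC, h⟩ := Pool.Agent.H36.KBX.coef_bound 3 (N + 1)
  refine ⟨((N : ℝ) + 1) ^ 3 * ((N + 1 + 1) * C) + 1, by
    have : (0 : ℝ) ≤ ((N : ℝ) + 1) ^ 3 * ((N + 1 + 1) * C) := by positivity
    linarith, fun P U R hP hU hR j v hv => ?_⟩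
  have hU0 : 0 ≤ U := (abs_nonneg _).trans (hU 0 fun i => by simp)
  have h1 := h P U hP hU
  have h2 := Pool.POLY.abs_eval_le (pderiv j P) (Pool.STB6.tdp hP j)
    (B := (N + 1 + 1) * (C * U)) (fun d => by
      rw [coeff_pderiv, abs_mul]
      by_cases h0 : coeff (d + Finsupp.single j 1) P = 0
      · rw [h0, abs_zero, zero_mul]
        positivity
      · have h2 : (d + Finsupp.single j 1) ∈ P.support := mem_support_iff.2 h0
        have h3 : (d + (Finsupp.single j 1 : Fin 3 →₀ ℕ)) j ≤ P.totalDegree := by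
          refine le_trans ?_ (degreeOf_le_totalDegree P j)
          exact (degreeOf_le_iff.1 le_rfl) _ h2
        have h4 : d j + 1 ≤ N + 1 := by
          rw [Finsupp.add_apply, Finsupp.single_eq_same] at h3
          omega
        have h5 : (d j : ℝ) + 1 ≤ N + 1 := by exact_mod_cast h4
        have h6 : (0 : ℝ) ≤ d j := Nat.cast_nonneg _
        rw [abs_of_nonneg (show (0 : ℝ) ≤ (d j : ℝ) + 1 by positivity), mul_comm]
        exact mul_le_mul (by linarith) (h1 _) (abs_nonneg _) (by positivity)) hR v hv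
  refine h2.trans ?_
  have h3 : 0 ≤ U * R ^ N := by positivity
  calc ((N : ℝ) + 1) ^ 3 * ((N + 1 + 1) * (C * U) * R ^ N) =
      ((N : ℝ) + 1) ^ 3 * ((N + 1 + 1) * C) * (U * R ^ N) := by ring
    _ ≤ (((N : ℝ) + 1) ^ 3 * ((N + 1 + 1) * C) + 1) * (U * R ^ N) := by linarith
    _ = _ := by ring

/-! ### Two samples with the same point -/

theorem t_ptr {F : Fam m J} {ω ω' : F.Ω} (h : ptr F J ω = ptr F J ω') : F.t ω = F.t ω' := by
  have h3 : F.T ω = F.T ω' := congrArg (fun p : PtT F => p.2.1) h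
  show (F.T ω : ℝ) / 2 ^ J = (F.T ω' : ℝ) / 2 ^ J
  rw [h3]

theorem x_ptr {F : Fam m J} {ω ω' : F.Ω} (h : ptr F J ω = ptr F J ω') (j : Fin m) :
    |F.x ω j - F.x ω' j| ≤ 1 / 2 ^ J :=
  Pool.STB.x_near F (congrFun (congrArg (fun p : PtT F => p.1) h) j)

/-- **The height over a closed chart at two samples with the same point.** -/
theorem lab_ptr (D : ℕ) : ∃ C : ℝ, 1 ≤ C ∧ ∀ {m J : ℕ} {F : Fam m J} {c : ℕ → Fin m}
    {B : F.Ω → Prop} {W W' e E gm : ℕ} {g : ℕ → ℕ}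
    {T : PtT F → ℕ → MvPolynomial (Option (Fin m)) ℝ}
    {TH : LnT F → ℕ → MvPolynomial (Option (Fin m)) ℝ},
    ChOK F c 2 (fun _ => D) W W' e g B T TH → ChOK F c 3 (fun _ => D) W W' E g B T TH →
    Set.InjOn c (Set.Iio 3) → (∀ l ≤ 2, g l ≤ gm) → e + gm + 2 ≤ J → ∀ ω ω', B ω → B ω' →
    ptr F J ω = ptr F J ω' →
    |2 ^ g 2 * (F.x ω (c 2) - eval (bt F ω) (T (ptr F J ω) 2)) -
      2 ^ g 2 * (F.x ω' (c 2) - eval (bt F ω') (T (ptr F J ω') 2))| ≤
        C * 2 ^ (E + gm) / 2 ^ J := by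
  obtain ⟨c₀, hdbl⟩ := nbx_dbl 3 (fun _ => D)
  refine ⟨1 + 2 * 2 ^ c₀, by
    have : (0 : ℝ) < 2 * 2 ^ c₀ := by positivity
    linarith, ?_⟩
  intro m J F c B W W' e E gm g T TH hl ht hc hgm hJ ω ω' hω hω' hp
  have pJ : (0 : ℝ) < 1 / 2 ^ J := by positivity
  have htm := t_ptr hp
  have hx : ∀ j, |F.x ω' j - F.x ω j| ≤ 1 / 2 ^ J := fun j => by
    rw [abs_sub_comm]
    exact x_ptr hp j
  -- the path
  obtain ⟨b, hb⟩ : ∃ b : ℝ → Option (Fin m) → ℝ, b = fun s o =>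
    bt F ω o + s * (bt F ω' o - bt F ω o) := ⟨_, rfl⟩
  have hbn : ∀ s, b s none = F.t ω := fun s => by
    rw [hb]
    show F.t ω + s * (F.t ω' - F.t ω) = F.t ω
    rw [htm]
    ring
  have hbj : ∀ s j, b s (some j) = F.x ω j + s * (F.x ω' j - F.x ω j) := fun s j => by
    rw [hb]
    rfl
  obtain ⟨y, hy⟩ : ∃ y, y = ptr F J ω := ⟨_, rfl⟩
  have hy' : ptr F J ω' = y := hy ▸ hp.symm
  rw [hy', ← hy]
  have p0 := ht.pos ω hω
  have p0' := ht.pos ω' hω'
  rw [← hy] at p0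
  rw [hy'] at p0'
  have hT0 : ∀ s, eval (b s) (T y 0) = eval (bt F ω) (T y 0) := fun s =>
    ht.depG y 0 _ _ (hbn s) fun l hl => absurd hl (Nat.not_lt_zero l)
  have hT0' : eval (bt F ω') (T y 0) = eval (bt F ω) (T y 0) :=
    ht.depG y 0 _ _ htm.symm fun l hl => absurd hl (Nat.not_lt_zero l)
  have hg0 := p0 0 (by norm_num)
  have hg0' := p0' 0 (by norm_num)
  rw [hT0'] at hg0'
  have hg1 := p0 1 (by norm_num)
  have hb0 : ∀ s ∈ Set.Icc (0 : ℝ) 1, |b s (some (c 0)) - eval (b s) (T y 0)| ≤ 1 / 2 ^ g 0 := by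
    intro s hs
    rw [hT0, hbj]
    obtain ⟨s0, s1⟩ := hs
    rw [abs_le] at hg0 hg0' ⊢
    constructor
    · nlinarith [hg0.1, hg0'.1]
    · nlinarith [hg0.2, hg0'.2]
  have e2 : ∀ a, a ≤ J → (1 : ℝ) / 2 ^ J ≤ 1 / 2 ^ a := fun a ha =>
    one_div_le_one_div_of_le (by positivity) (pow_le_pow_right₀ (by norm_num) ha)
  have e4 : ∀ a, a + 2 ≤ J → (1 : ℝ) / 2 ^ J ≤ 1 / 4 * (1 / 2 ^ a) := fun a ha => by
    have h1 := e2 (a + 2) ha
    have h2 : (1 : ℝ) / 2 ^ (a + 2) = 1 / 4 * (1 / 2 ^ a) := by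
      rw [pow_add]
      field_simp
      norm_num
    rwa [h2] at h1
  -- the second chart
  have hT1 : ∀ s ∈ Set.Icc (0 : ℝ) 1, |eval (b s) (T y 1) - eval (bt F ω) (T y 1)| ≤
      1 / 4 * (1 / 2 ^ g 1) := by
    intro s hs
    have hsum : ∑ o : Option (Fin m), (if o = some (c 0) then (1 : ℝ) / 4 * (1 / 2 ^ g 1) else 0) =
        1 / 4 * (1 / 2 ^ g 1) := by
      rw [Finset.sum_ite_eq' Finset.univ, if_pos (Finset.mem_univ _)]
    rw [← hsum]
    refine mv_pd (T y 1) (bt F ω) (b s) (M := fun o => if o = some (c 0) then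
      1 / 4 * (1 / 2 ^ g 1) else 0) ?_
    intro r hr o
    have hrs : (fun o => bt F ω o + r * (b s o - bt F ω o)) = b (r * s) := by
      funext o
      rw [hb]
      ring
    have hrs' : r * s ∈ Set.Icc (0 : ℝ) 1 :=
      ⟨mul_nonneg hr.1 hs.1, mul_le_one₀ hr.2 hs.1 hs.2⟩
    rw [hrs]
    split_ifs with ho
    · subst ho
      have h1 := hl.lip ω hω 1 (by norm_num) (b (r * s)) ⟨by
        rw [hbn, sub_self, abs_zero]
        positivity, fun l hl => by
        have : l = 0 := by omega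
        subst this
        rw [← hy]
        exact hb0 _ hrs'⟩ 0 (by norm_num)
      rw [← hy] at h1
      have h2 : |b s (some (c 0)) - bt F ω (some (c 0))| ≤ 1 / 2 ^ J := by
        rw [hbj]
        show |F.x ω (c 0) + s * (F.x ω' (c 0) - F.x ω (c 0)) - F.x ω (c 0)| ≤ _
        rw [add_sub_cancel_left, abs_mul, abs_of_nonneg hs.1]
        have h3 := hx (c 0)
        have h4 := abs_nonneg (F.x ω' (c 0) - F.x ω (c 0))
        nlinarith [hs.1, hs.2]
      refine (mul_le_mul h1 h2 (abs_nonneg _) (by positivity)).trans ?_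
      have h3 : nlp g 0 1 + g 1 ≤ gm := by
        unfold nlp
        have h4 : (Finset.Icc 0 1).sup g ≤ gm := Finset.sup_le fun l hl' => hgm l (by
          have := (Finset.mem_Icc.1 hl').2
          omega)
        have h5 := hgm 1 (by norm_num)
        omega
      have h4 := e4 (e + (nlp g 0 1 + g 1)) (by omega)
      have h5 : (2 : ℝ) ^ (e + nlp g 0 1) * (1 / 4 * (1 / 2 ^ (e + (nlp g 0 1 + g 1)))) =
          1 / 4 * (1 / 2 ^ g 1) := by
        rw [show e + (nlp g 0 1 + g 1) = (e + nlp g 0 1) + g 1 by ring, pow_add 2 (e + nlp g 0 1)]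
        field_simp
      rw [← h5]
      exact mul_le_mul_of_nonneg_left h4 (by positivity)
    · cases o with
      | none =>
        rw [hbn]
        show _ * |F.t ω - F.t ω| ≤ 0
        rw [sub_self, abs_zero, mul_zero]
      | some j =>
        rw [Pool.D2R.pd_zero (ht.depG y 1) (fun l hl' h => ho (by
          have : l = 0 := by omega
          subst this
          rw [h])), abs_zero, zero_mul]
  have hb1 : ∀ s ∈ Set.Icc (0 : ℝ) 1, |b s (some (c 1)) - eval (b s) (T y 1)| ≤ 4 / 2 ^ g 1 := by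
    intro s hs
    have h1 := hT1 s hs
    have h2 : |s * (F.x ω' (c 1) - F.x ω (c 1))| ≤ 1 / 2 ^ g 1 := by
      rw [abs_mul, abs_of_nonneg hs.1]
      have h3 := hx (c 1)
      have h4 := abs_nonneg (F.x ω' (c 1) - F.x ω (c 1))
      have h5 := e2 (g 1) (by have := hgm 1 (by norm_num); omega)
      nlinarith [hs.1, hs.2]
    have h3 : (4 : ℝ) / 2 ^ g 1 = 4 * (1 / 2 ^ g 1) := by ring
    rw [h3]
    have h4 : b s (some (c 1)) - eval (b s) (T y 1) = (F.x ω (c 1) - eval (bt F ω) (T y 1)) +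
        s * (F.x ω' (c 1) - F.x ω (c 1)) - (eval (b s) (T y 1) - eval (bt F ω) (T y 1)) := by
      rw [hbj]
      ring
    rw [h4]
    have h5 : (0 : ℝ) < 1 / 2 ^ g 1 := by positivity
    rw [abs_le] at h1 h2 hg1 ⊢
    constructor <;> linarith [h1.1, h1.2, h2.1, h2.2, hg1.1, hg1.2]
  -- the gradient of the third chart
  have hgr : ∀ l < 2, ∀ s ∈ Set.Icc (0 : ℝ) 1, |eval (b s) (pderiv (some (c l)) (T y 2))| ≤
      2 ^ c₀ * 2 ^ (E + nlp g l 2) := by
    intro l hl2 s hs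
    refine hdbl (c := c) (i := 2) (G := T y) (Q := pderiv (some (c l)) (T y 2)) (g := g) (a := W)
      (t := F.t ω) (by norm_num) (hc.mono (Set.Iio_subset_Iio (by norm_num))) (ht.degG y)
      (ht.depG y) (Pool.D2R.depC_pderiv (ht.depG y 2) _)
      ((Pool.Agent.H50.PW.totalDegree_pderiv_le _ _).trans (ht.degG y 2)) (by positivity) ?_ (b s)
      ?_ ?_
    · intro b' hb'
      have h1 := ht.lip ω hω 2 (by norm_num) b' (by rw [← hy]; exact hb') l hl2
      rw [← hy] at h1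
      exact h1
    · rw [hbn, sub_self, abs_zero]
      positivity
    · intro l' hl'
      interval_cases l'
      · refine (hb0 s hs).trans ?_
        have : (0 : ℝ) < 1 / 2 ^ g 0 := by positivity
        have h3 : (4 : ℝ) / 2 ^ g 0 = 4 * (1 / 2 ^ g 0) := by ring
        linarith
      · exact hb1 s hs
  -- the third chart
  have hnl : ∀ l ≤ 2, nlp g l 2 + g 2 ≤ gm := by
    intro l hl2
    unfold nlp
    have h4 : (Finset.Icc l 2).sup g ≤ gm := Finset.sup_le fun l' hl' => hgm l' (by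
      have := (Finset.mem_Icc.1 hl').2
      omega)
    have h5 : g 2 ≤ (Finset.Icc l 2).sup g := Finset.le_sup (f := g) (Finset.mem_Icc.2 ⟨hl2, le_rfl⟩)
    omega
  have hT2 : |eval (bt F ω') (T y 2) - eval (bt F ω) (T y 2)| ≤
      2 ^ c₀ * 2 ^ (E + nlp g 0 2) * (1 / 2 ^ J) + 2 ^ c₀ * 2 ^ (E + nlp g 1 2) * (1 / 2 ^ J) := by
    classical
    have hne : some (c 0) ≠ some (c 1) := fun h => by
      have h1 := hc (Set.mem_Iio.2 (by norm_num : (0 : ℕ) < 3)) (Set.mem_Iio.2 (by norm_num : (1 : ℕ) < 3))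
        (Option.some_injective _ h)
      exact absurd h1 (by norm_num)
    have hsum : ∑ o : Option (Fin m), ((if o = some (c 0) then
        2 ^ c₀ * 2 ^ (E + nlp g 0 2) * (1 / 2 ^ J) else 0) + (if o = some (c 1) then
        (2 : ℝ) ^ c₀ * 2 ^ (E + nlp g 1 2) * (1 / 2 ^ J) else 0)) =
        2 ^ c₀ * 2 ^ (E + nlp g 0 2) * (1 / 2 ^ J) + 2 ^ c₀ * 2 ^ (E + nlp g 1 2) * (1 / 2 ^ J) := by
      rw [Finset.sum_add_distrib, Finset.sum_ite_eq' Finset.univ, Finset.sum_ite_eq' Finset.univ,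
        if_pos (Finset.mem_univ _), if_pos (Finset.mem_univ _)]
    rw [← hsum]
    refine mv_pd (T y 2) (bt F ω) (bt F ω') (M := fun o => (if o = some (c 0) then
        2 ^ c₀ * 2 ^ (E + nlp g 0 2) * (1 / 2 ^ J) else 0) + (if o = some (c 1) then
        (2 : ℝ) ^ c₀ * 2 ^ (E + nlp g 1 2) * (1 / 2 ^ J) else 0)) ?_
    intro s hs o
    have hse : (fun o => bt F ω o + s * (bt F ω' o - bt F ω o)) = b s := by
      rw [hb]
    rw [hse]
    by_cases h0 : o = some (c 0)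
    · subst h0
      rw [if_pos rfl, if_neg hne, add_zero]
      exact mul_le_mul (hgr 0 (by norm_num) s hs) (hx (c 0)) (abs_nonneg _) (by positivity)
    · by_cases h1 : o = some (c 1)
      · subst h1
        rw [if_neg h0, if_pos rfl, zero_add]
        exact mul_le_mul (hgr 1 (by norm_num) s hs) (hx (c 1)) (abs_nonneg _) (by positivity)
      · rw [if_neg h0, if_neg h1, add_zero]
        cases o with
        | none =>
          show _ * |F.t ω' - F.t ω| ≤ 0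
          rw [htm, sub_self, abs_zero, mul_zero]
        | some j =>
          rw [Pool.D2R.pd_zero (ht.depG y 2) (fun l hl' h => by
            interval_cases l
            · exact h0 (by rw [h])
            · exact h1 (by rw [h])), abs_zero, zero_mul]
  have h1 : 2 ^ g 2 * (F.x ω (c 2) - eval (bt F ω) (T y 2)) -
      2 ^ g 2 * (F.x ω' (c 2) - eval (bt F ω') (T y 2)) = 2 ^ g 2 * ((F.x ω (c 2) - F.x ω' (c 2)) +
        (eval (bt F ω') (T y 2) - eval (bt F ω) (T y 2))) := by ring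
  rw [h1, abs_mul, abs_of_pos (show (0 : ℝ) < 2 ^ g 2 by positivity)]
  have h2 : |(F.x ω (c 2) - F.x ω' (c 2)) + (eval (bt F ω') (T y 2) - eval (bt F ω) (T y 2))| ≤
      1 / 2 ^ J + (2 ^ c₀ * 2 ^ (E + nlp g 0 2) * (1 / 2 ^ J) +
        2 ^ c₀ * 2 ^ (E + nlp g 1 2) * (1 / 2 ^ J)) :=
    (abs_add_le _ _).trans (add_le_add (by rw [abs_sub_comm]; exact hx (c 2)) hT2)
  refine (mul_le_mul_of_nonneg_left h2 (by positivity)).trans ?_
  have q1 : (2 : ℝ) ^ g 2 ≤ 2 ^ (E + gm) := pow_le_pow_right₀ (by norm_num) (by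
    have := hgm 2 le_rfl
    omega)
  have q2 : ∀ l ≤ 2, (2 : ℝ) ^ g 2 * 2 ^ (E + nlp g l 2) ≤ 2 ^ (E + gm) := fun l hl2 => by
    rw [← pow_add]
    exact pow_le_pow_right₀ (by norm_num) (by
      have := hnl l hl2
      omega)
  have q3 := q2 0 (by norm_num)
  have q4 := q2 1 (by norm_num)
  have q5 : (0 : ℝ) < 2 ^ c₀ := by positivity
  calc (2 : ℝ) ^ g 2 * (1 / 2 ^ J + (2 ^ c₀ * 2 ^ (E + nlp g 0 2) * (1 / 2 ^ J) +
        2 ^ c₀ * 2 ^ (E + nlp g 1 2) * (1 / 2 ^ J))) =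
      (2 ^ g 2 + 2 ^ c₀ * (2 ^ g 2 * 2 ^ (E + nlp g 0 2)) +
        2 ^ c₀ * (2 ^ g 2 * 2 ^ (E + nlp g 1 2))) * (1 / 2 ^ J) := by ring
    _ ≤ (2 ^ (E + gm) + 2 ^ c₀ * 2 ^ (E + gm) + 2 ^ c₀ * 2 ^ (E + gm)) * (1 / 2 ^ J) := by
        refine mul_le_mul_of_nonneg_right ?_ pJ.le
        have := mul_le_mul_of_nonneg_left q3 q5.le
        have := mul_le_mul_of_nonneg_left q4 q5.le
        linarith
    _ = _ := by ring

end Pool.HOL43
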