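import Pool.Agent.H43.HOL.Pta

/-!
# A closed gradient without curvature gives a better label: the line

`line_ev`: off a small event the height of `c 2` minus the potential at the position is nearly a constant of
the line.
-/

set_option autoImplicit false

namespace Pool.HOL43

open Finset Real MvPolynomial
open Pool.Agent.H49.Ent Pool.Agent.H32.Dense Pool.STK Pool.KA Pool.KSAT Pool.K2S Pool.PB Pool.S6C
open Pool.GEN Pool.CHT Pool.CHX Pool.D2Con Pool.D2A Pool.D2F Pool.RCD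
open Pool.STB (V3 Po Bx cv mv_pd ln)
open Pool.STB6 (pot)
open Pool.STB82 (dg yv hgP)
open Pool.STB65 (PosO grd_bx Rs)
open Pool.BFL (Pb)
open Pool.PB.Trl (rt rt_mem t_rt)

variable {m J : ℕ}

theorem pe_two {Ω : Type} [Fintype Ω] {p : Ω → ℝ} (hp : IsLaw p) {B G₁ G₂ : Ω → Prop} {a b : ℝ}
    (h1 : Pe p (fun ω => B ω ∧ ¬ G₁ ω) ≤ a) (h2 : Pe p (fun ω => B ω ∧ ¬ G₂ ω) ≤ b) :
    Pe p B - (a + b) ≤ Pe p (fun ω => B ω ∧ G₁ ω ∧ G₂ ω) := by
  classical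
  have h3 : Pe p B ≤ Pe p (fun ω => B ω ∧ G₁ ω ∧ G₂ ω) + (Pe p (fun ω => B ω ∧ ¬ G₁ ω) +
      Pe p (fun ω => B ω ∧ ¬ G₂ ω)) := by
    rw [Pool.K2S.Pe_eq, Pool.K2S.Pe_eq, Pool.K2S.Pe_eq, Pool.K2S.Pe_eq, ← Finset.sum_add_distrib,
      ← Finset.sum_add_distrib]
    refine Finset.sum_le_sum fun ω _ => ?_
    have h0 := hp.nonneg ω
    by_cases hB : B ω <;> by_cases hG : G₁ ω <;> by_cases hG' : G₂ ω <;> simp [hB, hG, hG', h0]
  linarith

/-- The potential of the closed polynomials. -/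
noncomputable def Uo (N : ℕ) {α : Type} (f : ℕ → α → Po) (y : α) : Po := pot N fun i : Fin 3 => f i y

/-- The base point of the sample on its line. -/
noncomputable def bso (F : Fam m J) (W k : ℕ) (xo : F.Ω → V3) (D₁ : LnT F → V3) (ω : F.Ω) : V3 :=
  xo ω - ((dg F W k ω : ℝ) / 2 ^ k) • D₁ (slam F W ω)

/-- The height minus the potential, along a line. -/
noncomputable def plo {F : Fam m J} (N : ℕ) (fL : ℕ → LnT F → Po) (D₁ bL : LnT F → V3)
    (hu : LnT F → Polynomial ℝ) (s : LnT F) : Polynomial ℝ :=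
  hu s - ln (bL s) (D₁ s) (Uo N fL s)

/-- **The constant of the line.** -/
theorem line_ev (N Ku : ℕ) : ∃ (Cr : ℕ) (A : ℝ), 1 ≤ Cr ∧ 1 ≤ A ∧
    ∀ {m J : ℕ} {F : Fam m J} {B : F.Ω → Prop} {W k x : ℕ} {σ Kp δ : ℝ} {W₀ d : ℕ} {y : F.Ω → V3}
      {hP : LnT F → Fin 3 → Polynomial ℝ} {ctr xo : ℕ → F.Ω → V3} {D₁ : LnT F → V3}
      {fG : ℕ → PtT F → Po} {fL : ℕ → LnT F → Po} {hu : LnT F → Polynomial ℝ} {ρ ηt : ℝ},
      PosO F B W₀ d k 1 σ Kp y hP ctr xo D₁ → W₀ + d = W →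
      (∀ j s, (fL j s).totalDegree ≤ N) →
      (∀ j < 3, ∀ ω, B ω → fG j (ptr F J ω) = fL j (slam F W ω)) →
      (∀ j < 3, ∀ ω, B ω → ∀ v, Bx 1 v → |eval v (fG j (ptr F J ω))| ≤ 2 ^ x) →
      (∀ i j : Fin 3, ∀ ω, B ω → ∀ v, Bx 1 v →
        |eval v (pderiv j (fG i (ptr F J ω)) - pderiv i (fG j (ptr F J ω)))| ≤ δ) →
      (∀ s, (hu s).natDegree ≤ Ku) →
      (∀ ω, B ω → |(Polynomial.derivative (hu (slam F W ω))).eval ((dg F W k ω : ℝ) / 2 ^ k) -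
        ∑ j : Fin 3, eval (xo 0 ω) (fG j (ptr F J ω)) * D₁ (slam F W ω) j| ≤ δ) →
      0 < Pe F.p B → 0 < ρ → ρ < 1 → (Cr : ℝ) ≤ ρ ^ Cr * 2 ^ k →
      k * Real.log 2 - ηt ≤
        CH (Pool.Agent.H49.Ent.cond F.p B True) (dg F W k) (slam F W) →
      0 ≤ δ ∧ 0 ≤ Kp ∧ ∃ vH : LnT F → ℝ,
        Pe F.p (fun ω => B ω ∧ ¬ |(hu (slam F W ω)).eval ((dg F W k ω : ℝ) / 2 ^ k) -
          eval (xo 0 ω) (Uo N fL (slam F W ω)) - vH (slam F W ω)| ≤
            A * (1 / ρ) ^ Cr * (δ + 2 ^ x * Kp / 2 ^ k)) ≤ (ηt + 2) / Real.log (1 / ρ) * Pe F.p B := by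
  classical
  obtain ⟨A₁, hA₁, hpot⟩ := Pool.STB6.pot_bd N
  obtain ⟨C₂, hC₂, hbdx⟩ := Pool.STB6.bdx (N + 1)
  obtain ⟨Cr, hCr, hrmz⟩ := Pool.NDD66.rmz_law (max Ku (N + 1))
  refine ⟨Cr, Cr * (1 + 3 * A₁ + 9 * C₂) + 3 * C₂ * A₁, hCr, ?_, ?_⟩
  · have h1 : (1 : ℝ) ≤ Cr := by exact_mod_cast hCr
    nlinarith
  intro m J F B W k x σ Kp δ W₀ d y hP ctr xo D₁ fG fL hu ρ ηt hpos hW hdL hcl hbd hcur hdu hder hB hρ
    hρ1 hCρ htm
  have hCr1 : (1 : ℝ) ≤ Cr := by exact_mod_cast hCr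
  have hA0 : 0 < A₁ := by linarith
  have hC0 : 0 < C₂ := by linarith
  obtain ⟨ω₀, hω₀⟩ : ∃ ω, B ω := by
    by_contra hno
    push Not at hno
    have : Pe F.p B = 0 := by
      rw [Pool.K2S.Pe_eq]
      exact Finset.sum_eq_zero fun ω _ => if_neg (hno ω)
    linarith
  have hδ0 : 0 ≤ δ := (abs_nonneg _).trans (hder ω₀ hω₀)
  have hpos' : ∀ ω ω', B ω → B ω' → slam F W ω = slam F W ω' →
      Bx (Kp / 2 ^ k) (xo 0 ω' - xo 0 ω - (((dg F W k ω' : ℝ) - dg F W k ω) / 2 ^ k) •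
        D₁ (slam F W ω)) := by
    intro ω ω' h1 h2 h3
    have h4 := hpos.pos 0 (by norm_num) ω ω' h1 h2
    rw [Nat.zero_mul, add_zero, hW] at h4
    exact h4 h3
  have pk : (0 : ℝ) < 2 ^ k := by positivity
  have hKp0 : 0 ≤ Kp := by
    have h1 := (abs_nonneg _).trans (hpos' ω₀ ω₀ hω₀ hω₀ rfl 0)
    rwa [le_div_iff₀ pk, zero_mul] at h1
  have hD1 : ∀ s, Bx 1 (D₁ s) := fun s => grd_bx (hpos.dg s)
  have hx1 : ∀ ω, B ω → Bx 1 (xo 0 ω) := fun ω hω => hpos.x1 0 (by norm_num) ω hω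
  have hdg0 : ∀ ω, 0 ≤ (dg F W k ω : ℝ) / 2 ^ k := fun ω =>
    div_nonneg (by exact_mod_cast Pool.STB82.dg_nonneg F W k ω) pk.le
  have hdg1 : ∀ ω, (dg F W k ω : ℝ) / 2 ^ k ≤ 1 := fun ω => by
    rw [div_le_one pk]
    have := Pool.STB82.dg_lt F W k ω
    exact_mod_cast this.le
  -- the base points
  obtain ⟨bL, hbL⟩ : ∃ bL : LnT F → V3, bL = via (slam F W) B (bso F W k (xo 0) D₁) 0 := ⟨_, rfl⟩
  have hpath : ∀ ω, B ω → (∀ s : ℝ, |s| ≤ 1 → Bx 8 (bL (slam F W ω) + s • D₁ (slam F W ω))) ∧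
      Bx (Kp / 2 ^ k) (xo 0 ω - (bL (slam F W ω) + ((dg F W k ω : ℝ) / 2 ^ k) •
        D₁ (slam F W ω))) := by
    intro ω hω
    obtain ⟨ω₁, h1, h2, h3⟩ := via_spec (slam F W) B (bso F W k (xo 0) D₁) 0 hω
    rw [← hbL] at h3
    have h4 : bL (slam F W ω) = xo 0 ω₁ - ((dg F W k ω₁ : ℝ) / 2 ^ k) • D₁ (slam F W ω) := by
      rw [h3, ← h2]
      rfl
    constructor
    · intro s hs i
      have a1 := hx1 ω₁ h1 i
      have a2 := hD1 (slam F W ω) i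
      have a3 : |s - (dg F W k ω₁ : ℝ) / 2 ^ k| ≤ 2 := by
        have b1 := abs_le.1 hs
        have b2 := hdg0 ω₁
        have b3 := hdg1 ω₁
        rw [abs_le]
        constructor <;> linarith [b1.1, b1.2]
      have a4 : (bL (slam F W ω) + s • D₁ (slam F W ω)) i = xo 0 ω₁ i +
          (s - (dg F W k ω₁ : ℝ) / 2 ^ k) * D₁ (slam F W ω) i := by
        rw [h4]
        simp only [Pi.add_apply, Pi.sub_apply, Pi.smul_apply, smul_eq_mul]
        ring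
      rw [a4]
      refine (abs_add_le _ _).trans ?_
      rw [abs_mul]
      have a5 : |s - (dg F W k ω₁ : ℝ) / 2 ^ k| * |D₁ (slam F W ω) i| ≤ 2 * 1 :=
        mul_le_mul a3 a2 (abs_nonneg _) (by norm_num)
      linarith
    · have h5 := hpos' ω₁ ω h1 hω h2
      rw [h2] at h5
      intro i
      have h6 := h5 i
      rw [h4]
      refine (le_of_eq ?_).trans h6
      congr 1
      simp only [Pi.add_apply, Pi.sub_apply, Pi.smul_apply, smul_eq_mul]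
      ring
  -- the potential
  have hfU : ∀ ω, B ω → Uo N fG (ptr F J ω) = Uo N fL (slam F W ω) := fun ω hω => by
    unfold Uo
    congr 1
    funext i
    exact hcl i i.2 ω hω
  have hfd : ∀ s (i : Fin 3), (fL i s).totalDegree ≤ N := fun s i => hdL i s
  have hfb : ∀ ω, B ω → ∀ (i : Fin 3) (v : V3), Bx 1 v → |eval v (fL i (slam F W ω))| ≤ 2 ^ x :=
    fun ω hω i v hv => by
      rw [← hcl i i.2 ω hω]
      exact hbd i i.2 ω hω v hv
  have hUd : ∀ s, (Uo N fL s).totalDegree ≤ N + 1 := fun s => Pool.STB6.pot_deg N _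
  have hU1 : ∀ ω, B ω → ∀ v, Bx 8 v → |eval v (Uo N fL (slam F W ω))| ≤ A₁ * 2 ^ x :=
    fun ω hω v hv => (hpot _ (hfd _)).1 _ (hfb ω hω) v hv
  have hU2 : ∀ ω, B ω → ∀ (j : Fin 3) (v : V3), Bx 8 v →
      |eval v (pderiv j (Uo N fL (slam F W ω))) - eval v (fL j (slam F W ω))| ≤ A₁ * δ := by
    intro ω hω j v hv
    refine (hpot _ (hfd _)).2 δ (fun i l q hq => ?_) j v hv
    have h1 := hcur i l ω hω q hq
    rw [hcl i i.2 ω hω, hcl l l.2 ω hω] at h1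
    exact h1
  have hB18 : ∀ v : V3, Bx 1 v → Bx 8 v := fun v hv i => (hv i).trans (by norm_num)
  have hU3 : ∀ ω, B ω → ∀ (j : Fin 3) (v : V3), Bx 8 v →
      |eval v (pderiv j (Uo N fL (slam F W ω)))| ≤ C₂ * (A₁ * 2 ^ x) := fun ω hω =>
    (hbdx _ _ (hUd _) fun v hv => hU1 ω hω v (hB18 v hv)).2
  have hf3 : ∀ ω, B ω → ∀ (i j : Fin 3) (v : V3), Bx 8 v →
      |eval v (pderiv j (fL i (slam F W ω)))| ≤ C₂ * 2 ^ x := fun ω hω i =>
    (hbdx _ _ ((hfd _ i).trans (Nat.le_succ N)) (hfb ω hω i)).2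
  -- the derivative at the own time
  obtain ⟨η, hη⟩ : ∃ η : ℝ, η = (1 + 3 * A₁) * δ + 9 * C₂ * (2 ^ x * Kp / 2 ^ k) := ⟨_, rfl⟩
  have hq0 : 0 ≤ 2 ^ x * Kp / 2 ^ k := by positivity
  have hη0 : 0 ≤ η := by rw [hη]; positivity
  obtain ⟨P, hPd⟩ : ∃ P : LnT F → Polynomial ℝ, P = plo N fL D₁ bL hu := ⟨_, rfl⟩
  have hPder : ∀ s (t : ℝ), (Polynomial.derivative (P s)).eval t =
      (Polynomial.derivative (hu s)).eval t -
        ∑ j, D₁ s j * eval (bL s + t • D₁ s) (pderiv j (Uo N fL s)) := by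
    intro s t
    rw [hPd]
    unfold plo
    rw [Polynomial.derivative_sub, Polynomial.eval_sub, Pool.STB6.ln_dev]
  have hPev : ∀ s (t : ℝ), (P s).eval t = (hu s).eval t - eval (bL s + t • D₁ s) (Uo N fL s) := by
    intro s t
    rw [hPd]
    unfold plo
    rw [Polynomial.eval_sub, Pool.STB6.ln_ev]
  have hown : ∀ ω, B ω →
      |(Polynomial.derivative (P (slam F W ω))).eval ((dg F W k ω : ℝ) / 2 ^ k)| ≤ η := by
    intro ω hω
    obtain ⟨h1, h2⟩ := hpath ω hω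
    obtain ⟨s, hs⟩ : ∃ s, s = (dg F W k ω : ℝ) / 2 ^ k := ⟨_, rfl⟩
    have h3 := hder ω hω
    rw [← hs] at h2 h3 ⊢
    have hs1 : |s| ≤ 1 := by
      rw [hs, abs_of_nonneg (hdg0 ω)]
      exact hdg1 ω
    rw [hPder]
    have h4 : ∀ j : Fin 3, |eval (xo 0 ω) (fG j (ptr F J ω)) * D₁ (slam F W ω) j -
        D₁ (slam F W ω) j * eval (bL (slam F W ω) + s • D₁ (slam F W ω))
          (pderiv j (Uo N fL (slam F W ω)))| ≤ 3 * (C₂ * 2 ^ x * (Kp / 2 ^ k)) + A₁ * δ := by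
      intro j
      rw [hcl j j.2 ω hω]
      have a1 := hU2 ω hω j _ (h1 s hs1)
      have a2 := Pool.STB6.mv3 (P := fL j (slam F W ω)) (hB18 _ (hx1 ω hω)) (h1 s hs1)
        (hf3 ω hω j) h2
      have a3 : eval (xo 0 ω) (fL j (slam F W ω)) * D₁ (slam F W ω) j -
          D₁ (slam F W ω) j * eval (bL (slam F W ω) + s • D₁ (slam F W ω))
            (pderiv j (Uo N fL (slam F W ω))) = D₁ (slam F W ω) j *
          ((eval (xo 0 ω) (fL j (slam F W ω)) -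
            eval (bL (slam F W ω) + s • D₁ (slam F W ω)) (fL j (slam F W ω))) -
          (eval (bL (slam F W ω) + s • D₁ (slam F W ω)) (pderiv j (Uo N fL (slam F W ω))) -
            eval (bL (slam F W ω) + s • D₁ (slam F W ω)) (fL j (slam F W ω)))) := by ring
      rw [a3, abs_mul]
      have a4 := abs_sub (eval (xo 0 ω) (fL j (slam F W ω)) -
            eval (bL (slam F W ω) + s • D₁ (slam F W ω)) (fL j (slam F W ω)))
          (eval (bL (slam F W ω) + s • D₁ (slam F W ω)) (pderiv j (Uo N fL (slam F W ω))) -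
            eval (bL (slam F W ω) + s • D₁ (slam F W ω)) (fL j (slam F W ω)))
      have a5 := mul_le_mul (hD1 (slam F W ω) j) (a4.trans (add_le_add a2 a1)) (abs_nonneg _)
        (by norm_num : (0 : ℝ) ≤ 1)
      linarith
    have h5 : (Polynomial.derivative (hu (slam F W ω))).eval s -
        ∑ j, D₁ (slam F W ω) j * eval (bL (slam F W ω) + s • D₁ (slam F W ω))
          (pderiv j (Uo N fL (slam F W ω))) =
        ((Polynomial.derivative (hu (slam F W ω))).eval s -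
          ∑ j : Fin 3, eval (xo 0 ω) (fG j (ptr F J ω)) * D₁ (slam F W ω) j) +
        ∑ j : Fin 3, (eval (xo 0 ω) (fG j (ptr F J ω)) * D₁ (slam F W ω) j -
          D₁ (slam F W ω) j * eval (bL (slam F W ω) + s • D₁ (slam F W ω))
            (pderiv j (Uo N fL (slam F W ω)))) := by
      rw [Finset.sum_sub_distrib]
      ring
    rw [h5]
    refine (abs_add_le _ _).trans ?_
    have h6 : |∑ j : Fin 3, (eval (xo 0 ω) (fG j (ptr F J ω)) * D₁ (slam F W ω) j -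
          D₁ (slam F W ω) j * eval (bL (slam F W ω) + s • D₁ (slam F W ω))
            (pderiv j (Uo N fL (slam F W ω))))| ≤
        3 * (3 * (C₂ * 2 ^ x * (Kp / 2 ^ k)) + A₁ * δ) := by
      refine (Finset.abs_sum_le_sum_abs _ _).trans ((Finset.sum_le_sum fun j _ => h4 j).trans
        (le_of_eq ?_))
      rw [Finset.sum_const, Finset.card_univ, Fintype.card_fin, nsmul_eq_mul]
      norm_num
    rw [hη]
    have h7 : 3 * (3 * (C₂ * 2 ^ x * (Kp / 2 ^ k)) + A₁ * δ) =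
      3 * A₁ * δ + 9 * C₂ * (2 ^ x * Kp / 2 ^ k) := by ring
    linarith
  -- the degree
  have hPdeg : ∀ s, (Polynomial.derivative (P s)).natDegree ≤ max Ku (N + 1) := by
    intro s
    refine (Polynomial.natDegree_derivative_le _).trans ((Nat.sub_le _ _).trans ?_)
    rw [hPd]
    unfold plo
    refine (Polynomial.natDegree_sub_le _ _).trans (max_le_max (hdu s) ?_)
    exact Pool.STB.ln_deg _ _ (hUd s)
  -- small everywhere
  obtain ⟨p, hp⟩ : ∃ p, p = Pool.Agent.H49.Ent.cond F.p B True := ⟨_, rfl⟩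
  have hpl : IsLaw p := hp ▸ isLaw_cond F.isLaw hB
  rw [← hp] at htm
  have hlog3 : Real.log (2 * ((2 ^ k : ℕ) : ℝ) + 1) ≤ k * Real.log 2 + Real.log 3 := by
    rw [← Real.log_pow, ← Real.log_mul (by positivity) (by norm_num)]
    refine Real.log_le_log (by positivity) ?_
    push_cast
    have : (1 : ℝ) ≤ 2 ^ k := one_le_pow₀ (by norm_num)
    linarith
  have hlog6 : Real.log 3 + Real.log 2 ≤ 2 := by
    rw [← Real.log_mul (by norm_num) (by norm_num), Real.log_le_iff_le_exp (by norm_num)]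
    have h1 : (2.7 : ℝ) < Real.exp 1 := by
      have := Real.exp_one_gt_d9
      linarith
    have h2 : Real.exp 2 = Real.exp 1 * Real.exp 1 := by
      rw [← Real.exp_add]
      norm_num
    rw [h2]
    nlinarith
  have key := hrmz F.Ω (LnT F) p (slam F W) (dg F W k) (fun s => Polynomial.derivative (P s))
    (2 ^ k) η (ηt + Real.log 3) ρ hpl Nat.one_le_two_pow hρ hρ1.le hη0 (by
      refine hCρ.trans (mul_le_mul_of_nonneg_left ?_ (by positivity))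
      push_cast
      linarith) (fun ω _ => by
      have h1 := Pool.STB82.dg_nonneg F W k ω
      have h2 := Pool.STB82.dg_lt F W k ω
      rw [abs_of_nonneg h1]
      push_cast
      exact h2.le) (by linarith) hPdeg
  have hlr : 0 < Real.log (1 / ρ) := Real.log_pos (by rw [lt_div_iff₀ hρ]; linarith)
  obtain ⟨η₁, hη₁⟩ : ∃ η₁ : ℝ, η₁ = Cr * (1 / ρ) ^ Cr * η := ⟨_, rfl⟩
  have hρi : (1 : ℝ) ≤ 1 / ρ := by
    rw [le_div_iff₀ hρ]
    linarith
  have hρC : (1 : ℝ) ≤ (1 / ρ) ^ Cr := one_le_pow₀ hρi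
  refine ⟨hδ0, hKp0, fun s => (P s).eval 0, ?_⟩
  have hev : ∀ ω, B ω → (∀ s : ℝ, |s| ≤ 1 →
      |(Polynomial.derivative (P (slam F W ω))).eval s| ≤ η₁) →
      |(hu (slam F W ω)).eval ((dg F W k ω : ℝ) / 2 ^ k) -
          eval (xo 0 ω) (Uo N fL (slam F W ω)) - (P (slam F W ω)).eval 0| ≤
        (Cr * (1 + 3 * A₁ + 9 * C₂) + 3 * C₂ * A₁) * (1 / ρ) ^ Cr * (δ + 2 ^ x * Kp / 2 ^ k) := by
    intro ω hω hall
    obtain ⟨h1, h2⟩ := hpath ω hω
    obtain ⟨s, hs⟩ : ∃ s, s = (dg F W k ω : ℝ) / 2 ^ k := ⟨_, rfl⟩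
    rw [← hs] at h2 ⊢
    have hs0 : 0 ≤ s := by rw [hs]; exact hdg0 ω
    have hs1 : s ≤ 1 := by rw [hs]; exact hdg1 ω
    have hmv := (convex_Icc (0 : ℝ) 1).norm_image_sub_le_of_norm_hasDerivWithin_le
      (f := fun t => (P (slam F W ω)).eval t)
      (f' := fun t => (Polynomial.derivative (P (slam F W ω))).eval t) (C := η₁) (x := 0) (y := s)
      (fun t _ => ((P (slam F W ω)).hasDerivAt t).hasDerivWithinAt) (fun t ht => by
        rw [Real.norm_eq_abs]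
        exact hall t (abs_le.2 ⟨by linarith [ht.1], ht.2⟩)) ⟨le_rfl, by norm_num⟩ ⟨hs0, hs1⟩
    rw [Real.norm_eq_abs, Real.norm_eq_abs, sub_zero, abs_of_nonneg hs0] at hmv
    have hη₁0 : 0 ≤ η₁ := (abs_nonneg _).trans (hall 0 (by simp))
    have hmv' : |(P (slam F W ω)).eval s - (P (slam F W ω)).eval 0| ≤ η₁ :=
      hmv.trans (mul_le_of_le_one_right hη₁0 hs1)
    have h3 := Pool.STB6.mv3 (P := Uo N fL (slam F W ω)) (hB18 _ (hx1 ω hω))
      (h1 s (abs_le.2 ⟨by linarith, hs1⟩)) (hU3 ω hω) h2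
    have h4 : (hu (slam F W ω)).eval s - eval (xo 0 ω) (Uo N fL (slam F W ω)) -
        (P (slam F W ω)).eval 0 = ((P (slam F W ω)).eval s - (P (slam F W ω)).eval 0) -
        (eval (xo 0 ω) (Uo N fL (slam F W ω)) -
          eval (bL (slam F W ω) + s • D₁ (slam F W ω)) (Uo N fL (slam F W ω))) := by
      rw [hPev _ s]
      ring
    rw [h4]
    refine (abs_sub _ _).trans ((add_le_add hmv' h3).trans ?_)
    rw [hη₁, hη]
    have e1 : 3 * (C₂ * (A₁ * 2 ^ x) * (Kp / 2 ^ k)) = 3 * C₂ * A₁ * (2 ^ x * Kp / 2 ^ k) := by ring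
    rw [e1]
    obtain ⟨a, ha⟩ : ∃ a : ℝ, a = 2 ^ x * Kp / 2 ^ k := ⟨_, rfl⟩
    obtain ⟨b, hb⟩ : ∃ b : ℝ, b = (1 / ρ) ^ Cr := ⟨_, rfl⟩
    rw [← ha] at hq0 ⊢
    rw [← hb] at hρC ⊢
    have b0 : 0 ≤ b := by linarith
    have t1 : 0 ≤ (Cr : ℝ) * (9 * C₂) * b * δ := by positivity
    have t2 : 0 ≤ (Cr : ℝ) * (1 + 3 * A₁) * b * a := by positivity
    have t3 : 0 ≤ 3 * C₂ * A₁ * b * δ := by positivity
    have t4 : 3 * C₂ * A₁ * a ≤ 3 * C₂ * A₁ * a * b := le_mul_of_one_le_right (by positivity) hρC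
    nlinarith
  have hsub : Sub (fun ω => B ω ∧ ¬ |(hu (slam F W ω)).eval ((dg F W k ω : ℝ) / 2 ^ k) -
      eval (xo 0 ω) (Uo N fL (slam F W ω)) - (P (slam F W ω)).eval 0| ≤
        (Cr * (1 + 3 * A₁ + 9 * C₂) + 3 * C₂ * A₁) * (1 / ρ) ^ Cr * (δ + 2 ^ x * Kp / 2 ^ k))
      (fun ω => B ω ∧ (|(Polynomial.derivative (P (slam F W ω))).eval
        ((dg F W k ω : ℝ) / ((2 ^ k : ℕ) : ℝ))| ≤ η ∧ ∃ s : ℝ, |s| ≤ 1 ∧
          Cr * (1 / ρ) ^ Cr * η < |(Polynomial.derivative (P (slam F W ω))).eval s|)) := by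
    rintro ω ⟨hω, hn⟩
    refine ⟨hω, ?_, ?_⟩
    · push_cast
      exact hown ω hω
    · by_contra hcon
      push Not at hcon
      exact hn (hev ω hω fun s hs => by rw [hη₁]; exact hcon s hs)
  refine (Pe_mono F.isLaw hsub).trans ?_
  rw [hp, Pool.LA91.Pb_cond hB, div_mul_eq_mul_div, div_le_iff₀ hB] at key
  rw [div_mul_eq_mul_div, le_div_iff₀ hlr]
  refine key.trans ?_
  exact mul_le_mul_of_nonneg_right (by linarith) hB.le

end Pool.HOL43
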