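import Pool.Agent.H43.HOL.Ptb

/-!
# A closed gradient without curvature gives a better label: the chart

`chart_of`: a closed chart of `c 2` plus a nearly closed polynomial is a closed chart.
-/

set_option autoImplicit false

namespace Pool.HOL43

open Finset Real MvPolynomial
open Pool.Agent.H49.Ent Pool.Agent.H32.Dense Pool.STK Pool.KA Pool.KSAT Pool.K2S Pool.PB Pool.S6C
open Pool.GEN Pool.CHT Pool.CHX Pool.D2Con Pool.D2A Pool.D2F Pool.RCD

variable {m J : ℕ}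

theorem nlp_two {g : ℕ → ℕ} {l : ℕ} (hl : l ≤ 2) : nlp g l 2 + g 2 = (Finset.Icc l 2).sup g := by
  unfold nlp
  have h5 : g 2 ≤ (Finset.Icc l 2).sup g := Finset.le_sup (f := g) (Finset.mem_Icc.2 ⟨hl, le_rfl⟩)
  omega

/-- **The new chart.** -/
theorem chart_of {F : Fam m J} {c : ℕ → Fin m} {B B₁ : F.Ω → Prop} {D D₂ W E E' Gn : ℕ}
    {g gN : ℕ → ℕ} {T : PtT F → ℕ → MvPolynomial (Option (Fin m)) ℝ}
    {TH : LnT F → ℕ → MvPolynomial (Option (Fin m)) ℝ}
    (top : ChOK F c 3 (fun _ => D) W W E g B T TH)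
    (heq : ∀ ω, B ω → T (ptr F J ω) 2 = TH (slam F W ω) 2) (hsub : Sub B₁ B)
    (nw : F.Ω → MvPolynomial (Option (Fin m)) ℝ) (vv : F.Ω → ℝ) {τa τb : ℝ}
    (hnwd : ∀ ω, (nw ω).totalDegree ≤ D₂) (hnwdep : ∀ ω, DepC c 2 (nw ω))
    (hnws : ∀ ω ω', B₁ ω → B₁ ω' → slam F W ω = slam F W ω' → nw ω = nw ω')
    (htwo : ∀ ω ω', B₁ ω → B₁ ω' → ptr F J ω' = ptr F J ω →
      (∀ b, eval b (nw ω') - eval b (nw ω) = 1 / 2 ^ g 2 * (vv ω' - vv ω)) ∧ |vv ω' - vv ω| ≤ τa)
    (hpos : ∀ ω, B₁ ω → |2 ^ g 2 * (F.x ω (c 2) - eval (bt F ω) (T (ptr F J ω) 2)) -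
      2 ^ g 2 * eval (bt F ω) (nw ω)| ≤ τb) (hτb : 0 ≤ τb) (htot : τb + τa ≤ 1 / 2 ^ Gn)
    (hgN2 : gN 2 = g 2 + Gn) (hgNl : ∀ l, l ≠ 2 → gN l = g l)
    (hgrad : ∀ ω, B₁ ω → ∀ b : Option (Fin m) → ℝ, NBx c (T (ptr F J ω)) g W (F.t ω) 2 b →
      ∀ l < 2, |eval b (pderiv (some (c l)) (nw ω))| ≤ 1 / 2 * 2 ^ (E' + nlp gN l 2))
    (hE1 : E + Gn + 1 ≤ E') : ChN F c 3 (fun _ => max D D₂) W W E' gN B₁ := by
  classical
  have pg2 : (0 : ℝ) < 2 ^ g 2 := by positivity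
  have hdep0 : DepC c 2 (0 : MvPolynomial (Option (Fin m)) ℝ) := fun b b' _ _ => by
    rw [map_zero, map_zero]
  obtain ⟨GN, hGN⟩ : ∃ GN : PtT F → ℕ → MvPolynomial (Option (Fin m)) ℝ, GN = fun z l =>
    if l = 2 then T z 2 + via (ptr F J) B₁ nw 0 z else T z l := ⟨_, rfl⟩
  obtain ⟨HN, hHN⟩ : ∃ HN : LnT F → ℕ → MvPolynomial (Option (Fin m)) ℝ, HN = fun s l =>
    if l = 2 then TH s 2 + via (slam F W) B₁ nw 0 s else TH s l := ⟨_, rfl⟩
  have hGN2 : ∀ z, GN z 2 = T z 2 + via (ptr F J) B₁ nw 0 z := fun z => by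
    rw [hGN]
    exact if_pos rfl
  have hGNl : ∀ z l, l ≠ 2 → GN z l = T z l := fun z l hl => by
    rw [hGN]
    exact if_neg hl
  have hHN2 : ∀ s, HN s 2 = TH s 2 + via (slam F W) B₁ nw 0 s := fun s => by
    rw [hHN]
    exact if_pos rfl
  have hHNl : ∀ s l, l ≠ 2 → HN s l = TH s l := fun s l hl => by
    rw [hHN]
    exact if_neg hl
  have hbox : ∀ ω, ∀ i < 3, ∀ b, NBx c (GN (ptr F J ω)) gN W (F.t ω) i b →
      NBx c (T (ptr F J ω)) g W (F.t ω) i b := by
    intro ω i hi b hb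
    refine ⟨hb.1, fun l hl => ?_⟩
    have h1 := hb.2 l hl
    rw [hGNl _ l (by omega), hgNl l (by omega)] at h1
    exact h1
  have hle : ∀ l, g l ≤ gN l := fun l => by
    by_cases h2 : l = 2
    · rw [h2, hgN2]
      omega
    · rw [hgNl l h2]
  have hdbig : ∀ (P Q' : MvPolynomial (Option (Fin m)) ℝ), P.totalDegree ≤ D →
      Q'.totalDegree ≤ D₂ → (P + Q').totalDegree ≤ max D D₂ :=
    fun P Q' h1 h2 => (totalDegree_add _ _).trans (max_le_max h1 h2)
  have hdepadd : ∀ (P Q' : MvPolynomial (Option (Fin m)) ℝ), DepC c 2 P → DepC c 2 Q' →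
      DepC c 2 (P + Q') := fun P Q' h1 h2 b b' hn hb => by
    rw [map_add, map_add, h1 b b' hn hb, h2 b b' hn hb]
  have k8 : (1 : ℝ) / 2 ^ (g 2 + Gn) = 1 / 2 ^ g 2 * (1 / 2 ^ Gn) := by
    rw [pow_add]
    field_simp
  have hinv : (1 : ℝ) / 2 ^ g 2 * 2 ^ g 2 = 1 := one_div_mul_cancel pg2.ne'
  have pinv : (0 : ℝ) < 1 / 2 ^ g 2 := by positivity
  refine ⟨GN, HN, ?_, ?_, ?_, ?_, ?_, ?_, ?_⟩
  · intro z i
    by_cases hi : i = 2
    · rw [hi, hGN2]
      exact hdbig _ _ (top.degG z 2) (via_prop (P := fun Q : MvPolynomial (Option (Fin m)) ℝ => Q.totalDegree ≤ D₂) _ _ _ _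
        (fun ω _ => hnwd ω) (by
          show (0 : MvPolynomial (Option (Fin m)) ℝ).totalDegree ≤ D₂
          rw [totalDegree_zero]
          exact Nat.zero_le _) z)
    · rw [hGNl z i hi]
      exact (top.degG z i).trans (le_max_left _ _)
  · intro z i
    by_cases hi : i = 2
    · rw [hi, hHN2]
      exact hdbig _ _ (top.degH z 2) (via_prop (P := fun Q : MvPolynomial (Option (Fin m)) ℝ => Q.totalDegree ≤ D₂) _ _ _ _
        (fun ω _ => hnwd ω) (by
          show (0 : MvPolynomial (Option (Fin m)) ℝ).totalDegree ≤ D₂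
          rw [totalDegree_zero]
          exact Nat.zero_le _) z)
    · rw [hHNl z i hi]
      exact (top.degH z i).trans (le_max_left _ _)
  · intro z i
    by_cases hi : i = 2
    · rw [hi, hGN2]
      exact hdepadd _ _ (top.depG z 2) (via_prop (P := fun Q => DepC c 2 Q) _ _ _ _
        (fun ω _ => hnwdep ω) hdep0 z)
    · rw [hGNl z i hi]
      exact top.depG z i
  · intro z i
    by_cases hi : i = 2
    · rw [hi, hHN2]
      exact hdepadd _ _ (top.depH z 2) (via_prop (P := fun Q => DepC c 2 Q) _ _ _ _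
        (fun ω _ => hnwdep ω) hdep0 z)
    · rw [hHNl z i hi]
      exact top.depH z i
  · intro ω hω i hi
    by_cases hi2 : i = 2
    · rw [hi2]
      obtain ⟨ω', h1, h2, h3⟩ := via_spec (ptr F J) B₁ nw 0 hω
      rw [hGN2, h3, hgN2, map_add, k8]
      obtain ⟨k1, k2⟩ := htwo ω ω' hω h1 h2
      have k3 := hpos ω hω
      have k4 := k1 (bt F ω)
      have k5 : F.x ω (c 2) - (eval (bt F ω) (T (ptr F J ω) 2) + eval (bt F ω) (nw ω')) =
          1 / 2 ^ g 2 * ((2 ^ g 2 * (F.x ω (c 2) - eval (bt F ω) (T (ptr F J ω) 2)) -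
            2 ^ g 2 * eval (bt F ω) (nw ω)) - (vv ω' - vv ω)) := by
        linear_combination -k4 - ((F.x ω (c 2) - eval (bt F ω) (T (ptr F J ω) 2)) -
            eval (bt F ω) (nw ω)) * hinv
      rw [k5, abs_mul, abs_of_pos pinv]
      have k7 := abs_sub (2 ^ g 2 * (F.x ω (c 2) - eval (bt F ω) (T (ptr F J ω) 2)) -
            2 ^ g 2 * eval (bt F ω) (nw ω)) (vv ω' - vv ω)
      exact mul_le_mul_of_nonneg_left (k7.trans ((add_le_add k3 k2).trans htot)) pinv.le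
    · rw [hGNl _ i hi2, hgNl i hi2]
      exact top.pos ω (hsub ω hω) i hi
  · intro ω hω i hi b hb
    have hb' := hbox ω i hi b hb
    by_cases hi2 : i = 2
    · subst hi2
      obtain ⟨ω', h1, h2, h3⟩ := via_spec (ptr F J) B₁ nw 0 hω
      rw [hGN2, hHN2, h3, via_eq 0 hnws hω, heq ω (hsub ω hω), hgN2, map_add, map_add, k8]
      obtain ⟨k1, k2⟩ := htwo ω ω' hω h1 h2
      have k4 := k1 b
      have k5 : eval b (TH (slam F W ω) 2) + eval b (nw ω') -
          (eval b (TH (slam F W ω) 2) + eval b (nw ω)) = 1 / 2 ^ g 2 * (vv ω' - vv ω) := by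
        rw [← k4]
        ring
      rw [k5, abs_mul, abs_of_pos pinv]
      refine mul_le_mul_of_nonneg_left (k2.trans ?_) pinv.le
      linarith
    · rw [hGNl _ i hi2, hHNl _ i hi2, hgNl i hi2]
      exact top.agr ω (hsub ω hω) i hi b hb'
  · intro ω hω i hi b hb l hl
    have hb' := hbox ω i hi b hb
    have h0 := top.lip ω (hsub ω hω) i hi b hb' l hl
    by_cases hi2 : i = 2
    · subst hi2
      obtain ⟨ω', h1, h2, h3⟩ := via_spec (ptr F J) B₁ nw 0 hω
      rw [hGN2, h3, map_add, map_add]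
      have hb2 : NBx c (T (ptr F J ω')) g W (F.t ω') 2 b := by
        rw [h2, t_ptr h2]
        exact hb'
      have k1 := hgrad ω' h1 b hb2 l hl
      have k2 : (2 : ℝ) ^ (E + nlp g l 2) ≤ 1 / 2 * 2 ^ (E' + nlp gN l 2) := by
        have e1 := nlp_two (g := g) (l := l) (by omega)
        have e2 := nlp_two (g := gN) (l := l) (by omega)
        rw [hgN2] at e2
        have e3 : (Finset.Icc l 2).sup g ≤ (Finset.Icc l 2).sup gN :=
          Finset.sup_mono_fun fun l' _ => hle l'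
        have e4 : (2 : ℝ) ^ (E + nlp g l 2 + 1) ≤ 2 ^ (E' + nlp gN l 2) :=
          pow_le_pow_right₀ (by norm_num) (by omega)
        rw [pow_succ] at e4
        linarith
      refine (abs_add_le _ _).trans ((add_le_add (h0.trans k2) k1).trans (le_of_eq ?_))
      ring
    · rw [hGNl _ i hi2]
      refine h0.trans (pow_le_pow_right₀ (by norm_num) ?_)
      have e1 : nlp g l i = nlp gN l i := by
        unfold nlp
        rw [hgNl i hi2]
        congr 1
        refine Finset.sup_congr rfl fun l' hl' => ?_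
        have := (Finset.mem_Icc.1 hl').2
        rw [hgNl l' (by omega)]
      rw [e1]
      omega

end Pool.HOL43
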