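import Pool.Agent.H43.HOL.Ptc

/-!
# A closed gradient without curvature gives a better label: the closed coordinates

`grd_new`: the gradient of the potential in the closed coordinates. `pot_q`: the closed coordinates are small on
the natural boxes.
-/

set_option autoImplicit false

namespace Pool.HOL43

open Finset Real MvPolynomial
open Pool.Agent.H49.Ent Pool.Agent.H32.Dense Pool.STK Pool.KA Pool.KSAT Pool.K2S Pool.PB Pool.S6C
open Pool.GEN Pool.CHT Pool.CHX Pool.D2Con Pool.D2A Pool.D2F Pool.RCD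
open Pool.STB (V3 Po Bx cv mv_pd ln)
open Pool.STB6 (pot)
open Pool.STB77 (NodW)
open Pool.CLR73 (ClR)
open Pool.STB82 (dg yv hgP)
open Pool.STB65 (PosO grd_bx Rs Rs_pos slam_eq_of_le)
open Pool.PB.Trl (rt rt_mem t_rt)

variable {m J : ℕ}

theorem ev_bind {σ τ : Type} (q : σ → MvPolynomial τ ℝ) (P : MvPolynomial σ ℝ) (b : τ → ℝ) :
    eval b (bind₁ q P) = eval (fun i => eval b (q i)) P := by
  rw [eval, eval₂Hom_bind₁]
  rfl

/-- The closed coordinates of a sample, as polynomials. -/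
noncomputable def qd (F : Fam m J) (c : ℕ → Fin m) (W₀ g1 : ℕ) (R : ℝ)
    (Pl : LnT F → MvPolynomial (Option (Fin m)) ℝ) (ctr : ℕ → F.Ω → V3) (ω : F.Ω) :
    Fin 3 → MvPolynomial (Option (Fin m)) ℝ :=
  qp c W₀ g1 R ((slam F W₀ ω).2.2 : ℝ) (ctr 0 ω) (Pl (slam F W₀ ω))

section

variable {F : Fam m J} {c : ℕ → Fin m} {B : F.Ω → Prop} {K₁ W₀ d k g1 e₁ y : ℕ} {Kp : ℝ}
  {Pv : PtT F → MvPolynomial (Option (Fin m)) ℝ} {Pl : LnT F → MvPolynomial (Option (Fin m)) ℝ}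
  {yt : PtT F → V3} {ctr xo : ℕ → F.Ω → V3} {D₁ : LnT F → V3}

theorem qd_ptr (h : ClR F c B K₁ W₀ d k g1 e₁ y Kp Pv Pl yt ctr xo D₁) (R : ℝ) {ω ω' : F.Ω}
    (hω : B ω) (hω' : B ω') (hp : ptr F J ω = ptr F J ω') :
    qd F c W₀ g1 R Pl ctr ω = qd F c W₀ g1 R Pl ctr ω' := by
  have h1 : (slam F W₀ ω).2.2 = (slam F W₀ ω').2.2 := by
    show F.T ω / 2 ^ (J - W₀) = F.T ω' / 2 ^ (J - W₀)
    rw [show F.T ω = F.T ω' from congrArg (fun p : PtT F => p.2.1) hp]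
  have h2 : Pl (slam F W₀ ω) = Pl (slam F W₀ ω') := by
    rw [← h.Pc ω hω, ← h.Pc ω' hω', hp]
  have h3 : ctr 0 ω = ctr 0 ω' := by
    obtain ⟨ψ, hψ⟩ := (h.pos.cc 0 (by norm_num)).2
    exact (hψ ω hω).trans ((congrArg ψ hp).trans (hψ ω' hω').symm)
  unfold qd
  rw [h1, h2, h3]

theorem qd_slam (h : ClR F c B K₁ W₀ d k g1 e₁ y Kp Pv Pl yt ctr xo D₁) (hJ : W₀ + d ≤ J) (R : ℝ)
    {ω ω' : F.Ω} (hω : B ω) (hω' : B ω') (hp : slam F (W₀ + d) ω = slam F (W₀ + d) ω') :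
    qd F c W₀ g1 R Pl ctr ω = qd F c W₀ g1 R Pl ctr ω' := by
  have h1 := slam_eq_of_le F (Nat.le_add_right W₀ d) hJ hp
  have h3 : ctr 0 ω = ctr 0 ω' := by
    obtain ⟨ψ, hψ⟩ := (h.pos.cc 0 (by norm_num)).1
    have e1 : W₀ + d + 0 * k = W₀ + d := by omega
    have hp' : slam F (W₀ + d + 0 * k) ω = slam F (W₀ + d + 0 * k) ω' := by rw [e1]; exact hp
    exact (hψ ω hω).trans ((congrArg ψ hp').trans (hψ ω' hω').symm)
  unfold qd
  rw [h1, h3]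

theorem qd_bt (hJ : W₀ ≤ J) (R : ℝ) (ω : F.Ω) (i : Fin 3) :
    eval (bt F ω) (qd F c W₀ g1 R Pl ctr ω i) = R * (yv F c W₀ g1 Pl ω i - ctr 0 ω i) :=
  qp_bt hJ R _ Pl ω i

theorem xo_ptr (h : ClR F c B K₁ W₀ d k g1 e₁ y Kp Pv Pl yt ctr xo D₁) {ω ω' : F.Ω}
    (hω : B ω) (hω' : B ω') (hp : ptr F J ω = ptr F J ω') : xo 0 ω = xo 0 ω' := by
  obtain ⟨ψ, hψ⟩ := (h.pos.cx 0 (by norm_num)).2
  exact (hψ ω hω).trans ((congrArg ψ hp).trans (hψ ω' hω').symm)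

end

/-- The gradient of the potential in the closed coordinates. -/
theorem grd_new {c : ℕ → Fin m} {W₀ g1 d e₁ : ℕ} {R b₀ 𝒢 : ℝ} {ct : V3}
    {P : MvPolynomial (Option (Fin m)) ℝ} {U : Po} {b : Option (Fin m) → ℝ} (hc : c 0 ≠ c 1)
    (hP : DepC c 1 P) (hR0 : 0 ≤ R) (hR : R ≤ 2 ^ d) (hG0 : 0 ≤ 𝒢)
    (hU : ∀ j : Fin 3, |eval (fun i => eval b (qp c W₀ g1 R b₀ ct P i)) (pderiv j U)| ≤ 𝒢)
    (hPd : |eval b (pderiv (some (c 0)) P)| ≤ 2 ^ e₁) :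
    |eval b (pderiv (some (c 0)) (bind₁ (qp c W₀ g1 R b₀ ct P) U))| ≤
      𝒢 * 2 ^ (d + W₀) + 𝒢 * 2 ^ (d + g1 + e₁) ∧
    |eval b (pderiv (some (c 1)) (bind₁ (qp c W₀ g1 R b₀ ct P) U))| ≤ 𝒢 * 2 ^ (d + g1 + e₁) := by
  have h2 : |R * 2 ^ g1| ≤ 2 ^ (d + g1) := by
    rw [abs_of_nonneg (by positivity), pow_add]
    exact mul_le_mul_of_nonneg_right hR (by positivity)
  constructor
  · rw [Pool.D2G30.pd_bind, map_sum, Fin.sum_univ_three, map_mul, map_mul, map_mul, ev_bind,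
      ev_bind, ev_bind, qp_pd00, qp_pd01, qp_pd02 hc, mul_zero, zero_add]
    refine (abs_add_le _ _).trans (add_le_add ?_ ?_)
    · rw [abs_mul]
      refine mul_le_mul (hU 1) ?_ (abs_nonneg _) hG0
      rw [abs_of_nonneg (by positivity), pow_add]
      exact mul_le_mul_of_nonneg_right hR (by positivity)
    · rw [abs_mul, abs_neg, abs_mul, pow_add 2 (d + g1)]
      exact mul_le_mul (hU 2) (mul_le_mul h2 hPd (abs_nonneg _) (by positivity)) (by positivity) hG0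
  · rw [Pool.D2G30.pd_bind, map_sum, Fin.sum_univ_three, map_mul, map_mul, map_mul, ev_bind,
      ev_bind, ev_bind, qp_pd00, qp_pd11 hc, qp_pd12 hc hP, mul_zero, mul_zero, zero_add, zero_add,
      abs_mul]
    refine mul_le_mul (hU 2) (h2.trans ?_) (abs_nonneg _) hG0
    exact pow_le_pow_right₀ (by norm_num) (Nat.le_add_right _ _)

/-- **The closed coordinates on the natural boxes.** -/
theorem pot_q {F : Fam m J} {c : ℕ → Fin m} {B : F.Ω → Prop} {D Dr W e E h : ℕ} {g : ℕ → ℕ} {κ : ℝ}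
    {T : PtT F → ℕ → MvPolynomial (Option (Fin m)) ℝ}
    {TH : LnT F → ℕ → MvPolynomial (Option (Fin m)) ℝ} {K₁ W₀ d k g1 e₁ y : ℕ} {Kp : ℝ}
    {Pv : PtT F → MvPolynomial (Option (Fin m)) ℝ} {Pl : LnT F → MvPolynomial (Option (Fin m)) ℝ}
    {yt : PtT F → V3} {ctr xo : ℕ → F.Ω → V3} {D₁ : LnT F → V3}
    (hnod : NodW F c 2 D Dr W W e E g h κ B T TH) (hW : W = W₀ + d)
    (hR : ClR F c B K₁ W₀ d k g1 e₁ y Kp Pv Pl yt ctr xo D₁) (hDr : K₁ + 1 ≤ Dr) (hκ : 0 ≤ κ)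
    (hJ : W ≤ J) {R : ℝ} (hRs : R = Rs d k ((2 ^ y) ^ 2) 0) :
    Pe F.p (fun ω => B ω ∧ ¬ ∀ b : Option (Fin m) → ℝ, NBx c (T (ptr F J ω)) g W (F.t ω) 2 b →
      ∀ i, |eval b (qd F c W₀ g1 R Pl ctr ω i)| ≤ 2 ^ (h + 1)) ≤ 4 * κ * Pe F.p B := by
  classical
  have hW₀J : W₀ ≤ J := by omega
  have hWJ : W₀ + d ≤ J := by omega
  have hR0 : 0 < R := hRs ▸ Rs_pos (by positivity) 0
  have hRd : R ≤ 2 ^ d := by
    rw [hRs]
    unfold Rs
    rw [Nat.zero_mul, add_zero]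
    refine div_le_self (by positivity) ?_
    exact one_le_pow₀ (one_le_pow₀ (by norm_num))
  obtain ⟨Q, hQ⟩ : ∃ Q : F.Ω → Fin 3 → MvPolynomial (Option (Fin m)) ℝ,
    Q = qd F c W₀ g1 R Pl ctr := ⟨_, rfl⟩
  rw [← hQ]
  have hQp : ∀ ω ω', B ω → B ω' → ptr F J ω = ptr F J ω' → Q ω = Q ω' := fun ω ω' a b hh => by
    rw [hQ]
    exact qd_ptr hR R a b hh
  have hQs : ∀ ω ω', B ω → B ω' → slam F W ω = slam F W ω' → Q ω = Q ω' := fun ω ω' a b hh => by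
    rw [hQ]
    exact qd_slam hR hWJ R a b (by rw [← hW]; exact hh)
  have hQb : ∀ ω i, eval (bt F ω) (Q ω i) = R * (yv F c W₀ g1 Pl ω i - ctr 0 ω i) := fun ω i => by
    rw [hQ]
    exact qd_bt hW₀J R ω i
  have hQ1 : ∀ ω, B ω → ∀ i, |eval (bt F ω) (Q ω i)| ≤ 1 / 2 := by
    intro ω hω i
    have h1 := hR.pos.q1 0 (by norm_num) ω hω i
    rw [← hRs] at h1
    rw [hQb]
    exact h1
  have hQdeg : ∀ ω i, (Q ω i).totalDegree ≤ Dr := fun ω i => by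
    rw [hQ]
    exact (qp_deg (hR.Ld _) i).trans hDr
  have hQdep : ∀ ω i, DepC c 2 (Q ω i) := fun ω i => by
    rw [hQ]
    exact qp_dep (hR.Lp _) i
  obtain ⟨ix, hix⟩ : ∃ ix : ℕ → Fin 3, ix = fun j => if j = 0 then 1 else 2 := ⟨_, rfl⟩
  have hdep0 : DepC c 2 (0 : MvPolynomial (Option (Fin m)) ℝ) := fun b b' _ _ => by
    rw [map_zero, map_zero]
  have hdeg0 : (0 : MvPolynomial (Option (Fin m)) ℝ).totalDegree ≤ Dr := by
    rw [totalDegree_zero]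
    exact Nat.zero_le _
  obtain ⟨qv, hqv⟩ : ∃ qv : ℕ → PtT F → MvPolynomial (Option (Fin m)) ℝ,
    qv = fun j => via (ptr F J) B (fun ω => Q ω (ix j)) 0 := ⟨_, rfl⟩
  obtain ⟨ql, hql⟩ : ∃ ql : ℕ → LnT F → MvPolynomial (Option (Fin m)) ℝ,
    ql = fun j => via (slam F W) B (fun ω => Q ω (ix j)) 0 := ⟨_, rfl⟩
  have e1 : ∀ j ω, B ω → qv j (ptr F J ω) = Q ω (ix j) := fun j ω hω => by
    rw [hqv]
    exact via_eq (v := fun ω => Q ω (ix j)) 0 (fun ω ω' a b hh => congrFun (hQp ω ω' a b hh) _) hω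
  have e2 : ∀ j ω, B ω → ql j (slam F W ω) = Q ω (ix j) := fun j ω hω => by
    rw [hql]
    exact via_eq (v := fun ω => Q ω (ix j)) 0 (fun ω ω' a b hh => congrFun (hQs ω ω' a b hh) _) hω
  have e3 : ∀ j y, (qv j y).totalDegree ≤ Dr := fun j y => by
    rw [hqv]
    exact via_prop (P := fun Q : MvPolynomial (Option (Fin m)) ℝ => Q.totalDegree ≤ Dr) _ _ _ _
      (fun ω _ => hQdeg ω _) hdeg0 y
  have e4 : ∀ j y, (ql j y).totalDegree ≤ Dr := fun j y => by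
    rw [hql]
    exact via_prop (P := fun Q : MvPolynomial (Option (Fin m)) ℝ => Q.totalDegree ≤ Dr) _ _ _ _
      (fun ω _ => hQdeg ω _) hdeg0 y
  have e5 : ∀ j y, DepC c 2 (qv j y) := fun j y => by
    rw [hqv]
    exact via_prop (P := fun Q : MvPolynomial (Option (Fin m)) ℝ => DepC c 2 Q) _ _ _ _
      (fun ω _ => hQdep ω _) hdep0 y
  have e6 : ∀ j y, DepC c 2 (ql j y) := fun j y => by
    rw [hql]
    exact via_prop (P := fun Q : MvPolynomial (Option (Fin m)) ℝ => DepC c 2 Q) _ _ _ _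
      (fun ω _ => hQdep ω _) hdep0 y
  have hrel := Pool.HOL95.rel_all hnod.rlF hκ (n := 2) qv ql (fun _ => 1)
    (fun j _ => e3 j) (fun j _ => e4 j) (fun j _ => e5 j) (fun j _ => e6 j) (fun _ _ => one_pos)
    (fun j _ ω hω => by
      rw [e1 j ω hω]
      exact (hQ1 ω hω (ix j)).trans (by norm_num))
    (fun j _ ω hω b _ => by
      rw [e1 j ω hω, e2 j ω hω, sub_self, abs_zero]
      exact zero_le_one)
  have h4 : (2 : ℝ) ^ 2 * κ = 4 * κ := by norm_num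
  rw [h4] at hrel
  refine (Pe_mono F.isLaw ?_).trans hrel
  rintro ω ⟨hω, hn⟩
  refine ⟨hω, fun h2 => hn fun b hb i => ?_⟩
  have h2h : (1 : ℝ) ≤ 2 ^ h := one_le_pow₀ (by norm_num)
  have key : ∀ j < 2, |eval b (Q ω (ix j))| ≤ 2 ^ h := by
    intro j hj
    have h3 := h2 j hj b hb
    rw [e1 j ω hω, mul_one] at h3
    exact h3
  have hp1 : (2 : ℝ) ^ h ≤ 2 ^ (h + 1) := pow_le_pow_right₀ (by norm_num) (Nat.le_succ h)
  have k0 : |eval b (Q ω 0)| ≤ 2 ^ (h + 1) := by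
    have h4 : eval b (Q ω 0) = eval (bt F ω) (Q ω 0) + R * (2 ^ W₀ * (b none - F.t ω)) := by
      rw [hQ]
      show eval b (qp c W₀ g1 R ((slam F W₀ ω).2.2 : ℝ) (ctr 0 ω) (Pl (slam F W₀ ω)) 0) =
        eval (bt F ω) (qp c W₀ g1 R ((slam F W₀ ω).2.2 : ℝ) (ctr 0 ω) (Pl (slam F W₀ ω)) 0) + _
      rw [qp_eval0, qp_eval0]
      show _ = R * (2 ^ W₀ * F.t ω - _) + _
      ring
    have h5 := hQ1 ω hω 0
    have h6 : |R * (2 ^ W₀ * (b none - F.t ω))| ≤ 1 := by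
      rw [abs_mul, abs_mul, abs_of_pos hR0, abs_of_pos (show (0 : ℝ) < 2 ^ W₀ by positivity)]
      have h7 := hb.1
      calc R * (2 ^ W₀ * |b none - F.t ω|) ≤ 2 ^ d * (2 ^ W₀ * (1 / 2 ^ W)) :=
            mul_le_mul hRd (mul_le_mul_of_nonneg_left h7 (by positivity)) (by positivity)
              (by positivity)
        _ = 1 := by
            rw [hW, pow_add]
            field_simp
    rw [h4]
    refine (abs_add_le _ _).trans ((add_le_add h5 h6).trans ?_)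
    rw [pow_succ]
    linarith
  have k1 : |eval b (Q ω 1)| ≤ 2 ^ (h + 1) := by
    have h3 := key 0 (by norm_num)
    rw [hix] at h3
    exact h3.trans hp1
  have k2 : |eval b (Q ω 2)| ≤ 2 ^ (h + 1) := by
    have h3 := key 1 (by norm_num)
    rw [hix] at h3
    exact h3.trans hp1
  fin_cases i
  · exact k0
  · exact k1
  · exact k2

/-- The chart of `c 1` on the natural boxes. -/
theorem pg_box {F : Fam m J} {c : ℕ → Fin m} {B : F.Ω → Prop} {h : ℕ} {K₁ W₀ d k g1 e₁ y : ℕ}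
    {Kp : ℝ} {Pv : PtT F → MvPolynomial (Option (Fin m)) ℝ}
    {Pl : LnT F → MvPolynomial (Option (Fin m)) ℝ} {yt : PtT F → V3} {ctr xo : ℕ → F.Ω → V3}
    {D₁ : LnT F → V3} (hR : ClR F c B K₁ W₀ d k g1 e₁ y Kp Pv Pl yt ctr xo D₁) (hJ : W₀ + d ≤ J)
    {R : ℝ} (hRs : R = Rs d k ((2 ^ y) ^ 2) 0) (hyd : 2 * y + h + 2 ≤ d) {ω : F.Ω} (hω : B ω)
    {b : Option (Fin m) → ℝ} (hb : |b none - F.t ω| ≤ 1 / 2 ^ (W₀ + d))
    (hq : |eval b (qd F c W₀ g1 R Pl ctr ω 1)| ≤ 2 ^ (h + 1)) :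
    |eval b (pderiv (some (c 0)) (Pl (slam F W₀ ω)))| ≤ 2 ^ e₁ := by
  have hR0 : 0 < R := hRs ▸ Rs_pos (by positivity) 0
  have hRe : R = 2 ^ d / (2 ^ y) ^ 2 := by
    rw [hRs]
    unfold Rs
    rw [Nat.zero_mul, add_zero]
  rw [← hR.Pc ω hω]
  refine hR.Pg ω hω b (hb.trans ?_) ?_
  · exact one_div_le_one_div_of_le (by positivity)
      (pow_le_pow_right₀ (by norm_num) (Nat.le_add_right _ _))
  · have h2 : |eval (bt F ω) (qd F c W₀ g1 R Pl ctr ω 1)| ≤ 1 / 2 := by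
      have h1 := hR.pos.q1 0 (by norm_num) ω hω 1
      rw [← hRs] at h1
      rw [qd_bt (by omega)]
      exact h1
    have h3 : eval b (qd F c W₀ g1 R Pl ctr ω 1) - eval (bt F ω) (qd F c W₀ g1 R Pl ctr ω 1) =
        R * 2 ^ W₀ * (b (some (c 0)) - F.x ω (c 0)) := by
      show eval b (qp c W₀ g1 R ((slam F W₀ ω).2.2 : ℝ) (ctr 0 ω) (Pl (slam F W₀ ω)) 1) -
        eval (bt F ω) (qp c W₀ g1 R ((slam F W₀ ω).2.2 : ℝ) (ctr 0 ω) (Pl (slam F W₀ ω)) 1) = _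
      rw [qp_eval1, qp_eval1]
      show _ - R * (2 ^ W₀ * F.x ω (c 0) - _) = _
      ring
    have h4 : |R * 2 ^ W₀ * (b (some (c 0)) - F.x ω (c 0))| ≤ 2 ^ (h + 2) := by
      rw [← h3]
      refine (abs_sub _ _).trans ((add_le_add hq h2).trans ?_)
      have : (1 : ℝ) ≤ 2 ^ (h + 1) := one_le_pow₀ (by norm_num)
      rw [pow_succ 2 (h + 1)]
      linarith
    rw [abs_mul, abs_of_pos (by positivity : 0 < R * 2 ^ W₀)] at h4
    have h5 : R * 2 ^ W₀ * (1 / 2 ^ W₀) = R := by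
      field_simp
    have h6 : (2 : ℝ) ^ (h + 2) ≤ R := by
      rw [hRe, le_div_iff₀ (by positivity), ← pow_mul, ← pow_add]
      exact pow_le_pow_right₀ (by norm_num) (by omega)
    refine le_of_mul_le_mul_left ?_ (by positivity : 0 < R * 2 ^ W₀)
    rw [h5]
    exact h4.trans h6

/-- The numbers of the gradient. -/
theorem big_num {gN : ℕ → ℕ} {C₄ A₁ A : ℝ} {x h N z z' l g2 Gn E' : ℕ} (hl : l ≤ 2)
    (hgN : gN 2 = g2 + Gn) (hz' : z' ≤ (Finset.Icc l 2).sup gN) (hC : 0 ≤ C₄) (hA₁ : 0 ≤ A₁)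
    (hA : 4 * (C₄ * A₁ * 2 ^ N) ≤ A)
    (hz : A * 2 ^ (x + (N + 1) * h + z + Gn) ≤ 2 ^ (E' + z')) :
    1 / 2 ^ g2 * (C₄ * (A₁ * 2 ^ x) * (2 ^ (h + 1)) ^ N * 2 ^ z) ≤
      1 / 4 * 2 ^ (E' + nlp gN l 2) := by
  have pg2 : (0 : ℝ) < 2 ^ g2 := by positivity
  have h1 := nlp_two (g := gN) (l := l) hl
  rw [hgN] at h1
  rw [div_mul_eq_mul_div, one_mul, div_le_iff₀ pg2]
  have h2 : (2 : ℝ) ^ (E' + z') ≤ 2 ^ (E' + nlp gN l 2 + g2 + Gn) :=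
    pow_le_pow_right₀ (by norm_num) (by omega)
  have h3 : C₄ * (A₁ * 2 ^ x) * (2 ^ (h + 1)) ^ N * 2 ^ z * 2 ^ Gn =
      C₄ * A₁ * 2 ^ N * 2 ^ (x + N * h + z + Gn) := by
    rw [← pow_mul, show (h + 1) * N = N * h + N by ring]
    simp only [pow_add]
    ring
  have h4 : (2 : ℝ) ^ (x + N * h + z + Gn) ≤ 2 ^ (x + (N + 1) * h + z + Gn) :=
    pow_le_pow_right₀ (by norm_num) (by
      have : N * h ≤ (N + 1) * h := Nat.mul_le_mul_right _ (Nat.le_succ N)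
      omega)
  have hA0 : 0 ≤ A := le_trans (by positivity) hA
  have h5 : 4 * (C₄ * (A₁ * 2 ^ x) * (2 ^ (h + 1)) ^ N * 2 ^ z * 2 ^ Gn) ≤
      2 ^ (E' + nlp gN l 2 + g2 + Gn) := by
    rw [h3]
    calc 4 * (C₄ * A₁ * 2 ^ N * 2 ^ (x + N * h + z + Gn)) =
        4 * (C₄ * A₁ * 2 ^ N) * 2 ^ (x + N * h + z + Gn) := by ring
      _ ≤ A * 2 ^ (x + (N + 1) * h + z + Gn) := mul_le_mul hA h4 (by positivity) hA0
      _ ≤ _ := hz.trans h2
  rw [pow_add 2 _ Gn] at h5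
  have h6 : (0 : ℝ) < 2 ^ Gn := by positivity
  have h7 : 4 * (C₄ * (A₁ * 2 ^ x) * (2 ^ (h + 1)) ^ N * 2 ^ z) ≤
      2 ^ (E' + nlp gN l 2 + g2) := by
    refine le_of_mul_le_mul_right ?_ h6
    linarith
  rw [pow_add 2 _ g2] at h7
  linarith

end Pool.HOL43
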