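import Pool.Agent.H73.D2.Clrd
import Pool.Agent.H37.STA.Gn
import Pool.Agent.H66.NDD.Prm

/-!
# A closed gradient without curvature

`PotH`: a closed ball of the window `W₀ + d`, the closed coordinates, three closed polynomials `f j` with small
curvature, which are the gradient of the height of `c 2` along the lines, at the times of the samples.
-/

set_option autoImplicit false

namespace Pool.HOL43

open Finset Real MvPolynomial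
open Pool.Agent.H49.Ent Pool.Agent.H32.Dense Pool.STK Pool.KA Pool.KSAT Pool.K2S Pool.PB Pool.S6C
open Pool.GEN Pool.CHT Pool.D2Con Pool.D2A Pool.D2F Pool.RCD
open Pool.STB (V3 Po Bx cv)
open Pool.STB82 (dg yv hgP)
open Pool.STB77 (NodW)
open Pool.CLR73 (ClR)
open Pool.PKG (Kg RecG)
open Pool.BFL (Pb)

variable {m : ℕ}

/-- **The closed gradient without curvature**, for the place `c 2`, at the window `W₀ + d`. -/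
structure PotH {J : ℕ} (F : Fam m J) (c : ℕ → Fin m) (B : F.Ω → Prop) (D Dr N Ku K₁ W₀ d k e E h : ℕ)
    (g : ℕ → ℕ) (κ : ℝ) (g1 e₁ y x : ℕ) (Kp δ : ℝ)
    (T : PtT F → ℕ → MvPolynomial (Option (Fin m)) ℝ)
    (TH : LnT F → ℕ → MvPolynomial (Option (Fin m)) ℝ)
    (Pv : PtT F → MvPolynomial (Option (Fin m)) ℝ) (Pl : LnT F → MvPolynomial (Option (Fin m)) ℝ)
    (yt : PtT F → V3) (ctr xo : ℕ → F.Ω → V3) (D₁ : LnT F → V3) (fG : ℕ → PtT F → Po)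
    (fL : ℕ → LnT F → Po) (hu : LnT F → Polynomial ℝ) : Prop where
  /-- the closed ball of the window (`nd_geo`, node `k < N'`) -/
  nod : NodW F c 2 D Dr (W₀ + d) (W₀ + d) e E g h κ B T TH
  eq : ∀ ω, B ω → T (ptr F J ω) 2 = TH (slam F (W₀ + d) ω) 2
  /-- the closed coordinates (`clo_rec`) -/
  clr : ClR F c B K₁ W₀ d k g1 e₁ y Kp Pv Pl yt ctr xo D₁
  /-- the closed polynomials `f 0, f 1, f 2` (`CloO`) -/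
  dG : ∀ j y, (fG j y).totalDegree ≤ N
  dL : ∀ j s, (fL j s).totalDegree ≤ N
  cl : ∀ j < 3, ∀ ω, B ω → fG j (ptr F J ω) = fL j (slam F (W₀ + d) ω)
  bd : ∀ j < 3, ∀ ω, B ω → ∀ v, Bx 1 v → |eval v (fG j (ptr F J ω))| ≤ 2 ^ x
  /-- no curvature -/
  cur : ∀ i j : Fin 3, ∀ ω, B ω → ∀ v, Bx 1 v →
    |eval v (pderiv j (fG i (ptr F J ω)) - pderiv i (fG j (ptr F J ω)))| ≤ δ
  /-- the own path of `c 2`, in the relative time of the window, unit `2 ^ (- g 2)` -/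
  hd : ∀ s, (hu s).natDegree ≤ Ku
  val : ∀ ω, B ω → |2 ^ g 2 * (F.x ω (c 2) - eval (bt F ω) (T (ptr F J ω) 2)) -
    (hu (slam F (W₀ + d) ω)).eval ((dg F (W₀ + d) k ω : ℝ) / 2 ^ k)| ≤ δ
  /-- its velocity at the own time is the gradient times the direction -/
  der : ∀ ω, B ω → |(Polynomial.derivative (hu (slam F (W₀ + d) ω))).eval
    ((dg F (W₀ + d) k ω : ℝ) / 2 ^ k) - ∑ j : Fin 3, eval (xo 0 ω) (fG j (ptr F J ω)) *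
      D₁ (slam F (W₀ + d) ω) j| ≤ δ

/-- **A closed gradient without curvature gives a better label**, event form. -/
def PotEvStmt : Prop := ∀ D N Ku K₁ : ℕ, ∃ (Dr₀ D' Cr : ℕ) (A : ℝ), D ≤ D' ∧ 1 ≤ Cr ∧ 1 ≤ A ∧
  ∀ {m J : ℕ} {F : Fam m J} {c : ℕ → Fin m} {B : F.Ω → Prop} {Dr W₀ d k e E h : ℕ} {g : ℕ → ℕ}
    {κ : ℝ} {g1 e₁ y x : ℕ} {Kp δ : ℝ} {T : PtT F → ℕ → MvPolynomial (Option (Fin m)) ℝ}
    {TH : LnT F → ℕ → MvPolynomial (Option (Fin m)) ℝ}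
    {Pv : PtT F → MvPolynomial (Option (Fin m)) ℝ} {Pl : LnT F → MvPolynomial (Option (Fin m)) ℝ}
    {yt : PtT F → V3} {ctr xo : ℕ → F.Ω → V3} {D₁ : LnT F → V3} {fG : ℕ → PtT F → Po}
    {fL : ℕ → LnT F → Po} {hu : LnT F → Polynomial ℝ} {ρ ηt : ℝ} {Gn E' gm : ℕ},
    PotH F c B D Dr N Ku K₁ W₀ d k e E h g κ g1 e₁ y x Kp δ T TH Pv Pl yt ctr xo D₁ fG fL hu →
    0 < Pe F.p B → Set.InjOn c (Set.Iio 3) → Dr₀ ≤ Dr → 0 ≤ κ → 2 * y + h + 2 ≤ d →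
    W₀ + d + k ≤ J → (∀ l ≤ 2, g l ≤ gm) → e + gm + 2 ≤ J →
    0 < ρ → ρ < 1 → (Cr : ℝ) ≤ ρ ^ Cr * 2 ^ k →
    k * Real.log 2 - ηt ≤
      CH (Pool.Agent.H49.Ent.cond F.p B True) (dg F (W₀ + d) k) (slam F (W₀ + d)) →
    -- the error
    A * (1 / ρ) ^ Cr * (δ + 2 ^ x * (Kp + 1) / 2 ^ k) + A * 2 ^ (E + gm) / 2 ^ J ≤ 1 / 2 ^ Gn →
    -- the gradient
    E + Gn + 1 ≤ E' → A * 2 ^ (x + (N + 1) * h + d + g1 + e₁ + Gn) ≤ 2 ^ (E' + g 1) →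
    A * 2 ^ (x + (N + 1) * h + d + W₀ + Gn) ≤ 2 ^ (E' + g 0) →
    ∃ B' : F.Ω → Prop, Sub B' B ∧
      (1 - ((ηt + 2) / Real.log (1 / ρ) + 4 * κ)) * Pe F.p B ≤ Pe F.p B' ∧
      ChN F c 3 (fun _ => D') (W₀ + d) (W₀ + d) E' (fun l => if l = 2 then g 2 + Gn else g l) B'

/-- **No curvature is impossible at a record**: on a large part of every event the data `PotH` at the
window `t + V₀ q` (`W₀ + d` = its digits, `k` of order `q J`), errors `2 ^ (- ξ q J)`. -/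
def PotVoidStmt : Prop := ∀ D N Ku K₁ : ℕ, ∃ Dr₀ : ℕ, ∀ ξ : ℝ, 0 < ξ → ∃ ω : ℝ, 0 < ω ∧
  ∀ {m : ℕ} {S : PCl m} {al : ℝ} {g₀ : ℝ → ℝ} {P₀ : List (Fin m) × Fin m → ℝ → ℝ → ℝ}
    {θ : ℝ} {P₂ : ℕ → List (Fin m) × Fin m → ℝ → ℝ → ℝ} {θ₂ Eb e₂ : ℕ → ℝ}
    {c : ℕ → Fin m} {Pt : ℝ → ℝ → ℝ} {r : ℝ → ℝ} {h K₀ g : ℝ} {L T : ℕ → ℝ → ℝ → ℝ}
    {Sl : ℕ → ℝ} {κ : ℕ → Kg} {G : Set ℝ} {S₀ N₀ : ℕ} {A V : ℕ → ℝ} {S₂ N' : ℕ} {V' : ℕ → ℝ}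
    {K ε q t : ℝ}, RecG S al g₀ P₀ θ P₂ θ₂ Eb e₂ c Pt r h K₀ g L T Sl κ G S₀ N₀ A V S₂ N' V' K ε q
      t → 2 < m → ∀ {kV : ℕ} {V₀ : ℝ}, kV < N' → V' kV = V₀ → |V₀| ≤ K → 1 + 3 * ξ ≤ K →
    ∀ (Dr : ℕ) (Km cκ c₀ : ℝ), Dr₀ ≤ Dr → 0 < c₀ → 0 ≤ cκ → 4 * cκ ≤ 1 / 4 → ¬ Bas S (fun J F A' =>
      ∃ B : F.Ω → Prop, Sub B A' ∧ c₀ * Pe F.p A' ≤ Pe F.p B ∧
      ∃ (W₀ d k e E hh : ℕ) (gg : ℕ → ℕ) (g1 e₁ y x : ℕ) (Kp δ : ℝ)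
        (Tt : PtT F → ℕ → MvPolynomial (Option (Fin m)) ℝ)
        (TH : LnT F → ℕ → MvPolynomial (Option (Fin m)) ℝ)
        (Pv : PtT F → MvPolynomial (Option (Fin m)) ℝ)
        (Pl : LnT F → MvPolynomial (Option (Fin m)) ℝ) (yt : PtT F → V3) (ctr xo : ℕ → F.Ω → V3)
        (D₁ : LnT F → V3) (fG : ℕ → PtT F → Po) (fL : ℕ → LnT F → Po) (hu : LnT F → Polynomial ℝ),
        PotH F c B D Dr N Ku K₁ W₀ d k e E hh gg cκ g1 e₁ y x Kp δ Tt TH Pv Pl yt ctr xo D₁ fG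
          fL hu ∧
        W₀ + d = ⌊(t + V₀ * q) * J⌋₊ ∧ (d : ℝ) ≤ Km * q * J ∧ k ≤ q * J * Km ∧ ξ * q * J ≤ k ∧
        (y : ℝ) ≤ ω * q * J ∧ (hh : ℝ) ≤ ω * q * J ∧ (x : ℝ) ≤ ω * q * J ∧
        2 * y + hh + 2 ≤ d ∧ W₀ + d + k ≤ J ∧
        Kp + 1 ≤ 2 ^ (k - ξ * q * J) ∧ δ ≤ 2 ^ (-(ξ * q * J)) ∧
        (e : ℝ) ≤ (Eb 2 + ω * q) * J ∧ (E : ℝ) ≤ (Eb 2 + ω * q) * J ∧
        (e₁ : ℝ) ≤ (Eb 2 + ω * q) * J ∧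
        (∀ l ≤ 2, (L l (t + V₀ * q) (t + V₀ * q) - ω * q) * J ≤ gg l ∧
          (gg l : ℝ) ≤ L l (t + V₀ * q) (t + V₀ * q) * J) ∧
        (g1 : ℝ) + d ≤ (L 1 (t + V₀ * q) (t + V₀ * q) + ω * q) * J)

end Pool.HOL43
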